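import Pool.Agent.TH28.FL.Dat

/-!
FL2-JORD (MP_80e906_al, job 1769).
-/

set_option autoImplicit false

universe u v

namespace Pool.Agent.TH606.FL

open Module Pool.Agent.TH28.FL

/-- a linear map that acts by additive scalars on a grading is a derivation -/
theorem derivation_of_grading {K : Type u} [Field K] {L : Type v} [LieRing L] [LieAlgebra K L]
    (P : K → Submodule K L) (hP : ⨆ c, P c = ⊤) (D : L →ₗ[K] L) (φ : K → K)
    (hD : ∀ c, ∀ y ∈ P c, D y = φ c • y)
    (hb : ∀ c d, ∀ y ∈ P c, ∀ z ∈ P d, D ⁅y, z⁆ = (φ c + φ d) • ⁅y, z⁆) :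
    ∃ E : LieDerivation K L L, (E : L →ₗ[K] L) = D := by
  have key : ∀ a b : L, D ⁅a, b⁆ = ⁅a, D b⁆ - ⁅b, D a⁆ := by
    intro a b
    have ha : a ∈ ⨆ c, P c := by rw [hP]; trivial
    have hb' : b ∈ ⨆ c, P c := by rw [hP]; trivial
    refine Submodule.iSup_induction P (motive := fun a => D ⁅a, b⁆ = ⁅a, D b⁆ - ⁅b, D a⁆) ha ?_
      (by simp) ?_
    · intro c y hy
      refine Submodule.iSup_induction P (motive := fun b => D ⁅y, b⁆ = ⁅y, D b⁆ - ⁅b, D y⁆) hb' ?_
        (by simp) ?_
      · intro d z hz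
        rw [hb c d y hy z hz, hD c y hy, hD d z hz, lie_smul, lie_smul, ← lie_skew y z]
        simp only [smul_neg, add_smul]
        abel
      · intro z z' h1 h2
        rw [lie_add, map_add, h1, h2, map_add, lie_add, add_lie]
        abel
    · intro y y' h1 h2
      rw [add_lie, map_add, h1, h2, map_add, lie_add, add_lie]
      abel
  exact ⟨{ D with leibniz' := fun a b => key a b }, rfl⟩

theorem jord : S_JORD.{u, v} := by
  intro K _ _ _ L _ _ _ _ x
  obtain ⟨N, hN, S, hS, hNn, hSs, hx⟩ :=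
    Module.End.exists_isNilpotent_isSemisimple (f := LieAlgebra.ad K L x)
  have hcS : Commute (LieAlgebra.ad K L x) S :=
    (Algebra.commute_of_mem_adjoin_self hS)
  have hSfs : S.IsFinitelySemisimple := Module.End.isFinitelySemisimple_iff_isSemisimple.2 hSs
  have hnil : IsNilpotent (LieAlgebra.ad K L x - S) := by
    rw [hx, add_sub_cancel_right]
    exact hNn
  have hact : ∀ c : K, ∀ y ∈ (LieAlgebra.ad K L x).maxGenEigenspace c, S y = c • y := by
    intro c y hy
    exact Module.End.apply_eq_of_mem_of_comm_of_isFinitelySemisimple_of_isNil hy hcS hSfs hnil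
  obtain ⟨E, hE⟩ := derivation_of_grading (fun c : K => (LieAlgebra.ad K L x).maxGenEigenspace c)
    (Module.End.iSup_maxGenEigenspace_eq_top _) S (fun c => c) hact
    (fun c d y hy z hz => hact _ _ (LieModule.lie_mem_maxGenEigenspace_toEnd hy hz))
  obtain ⟨s, hs⟩ := LieDerivation.IsKilling.exists_eq_ad E
  have hsS : LieAlgebra.ad K L s = S := by
    rw [← hE, ← hs]
    ext y
    simp
  have hxN : LieAlgebra.ad K L (x - s) = N := by
    rw [map_sub, hsS, hx, add_sub_cancel_right]
  refine ⟨s, x - s, by abel, ?_, ?_, ?_, ?_⟩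
  · have h1 : S x = (0 : K) • x := by
      apply hact 0 x
      refine (Module.End.mem_maxGenEigenspace _ _ _).2 ⟨1, ?_⟩
      simp
    rw [← hsS, zero_smul] at h1
    have h4 : ⁅s, x⁆ = 0 := h1
    rw [lie_sub, lie_self, sub_zero, h4]
  · rw [hsS]; exact hSs
  · rw [hxN]; exact hNn
  · intro y c hy
    have h1 : y ∈ (LieAlgebra.ad K L x).maxGenEigenspace c := by
      apply Module.End.mem_maxGenEigenspace _ _ _ |>.2
      refine ⟨1, ?_⟩
      simp [hy]
    have h2 := hact c y h1
    rw [← hsS] at h2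
    exact h2

end Pool.Agent.TH606.FL
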