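import Pool.Agent.TH606.J1769

/-!
FL2-GRD (MP_80e906_al, job 1770).
-/

set_option autoImplicit false

universe u v

namespace Pool.Agent.TH606.FL

open Module Pool.Agent.TH28.FL

theorem exists_int_scale {K : Type u} (E : Finset K) (ψ : K → ℚ) :
    ∃ m : ℕ, m ≠ 0 ∧ ∀ c ∈ E, ∃ j : ℤ, (m : ℚ) * ψ c = j := by
  classical
  refine ⟨∏ c ∈ E, (ψ c).den, Finset.prod_ne_zero_iff.2 fun c _ => (ψ c).den_nz, ?_⟩
  intro c hc
  obtain ⟨k, hk⟩ := Finset.dvd_prod_of_mem (fun c => (ψ c).den) hc
  refine ⟨k * (ψ c).num, ?_⟩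
  rw [hk]
  push_cast
  have h1 : ((ψ c).den : ℚ) * ψ c = (ψ c).num := by
    rw [mul_comm]; exact Rat.mul_den_eq_num (ψ c)
  calc ((ψ c).den : ℚ) * k * ψ c = k * (((ψ c).den : ℚ) * ψ c) := by ring
    _ = k * (ψ c).num := by rw [h1]

theorem grd : S_GRD.{u, v} := by
  intro K _ _ _ L _ _ _ _ s hs
  classical
  set A : Module.End K L := LieAlgebra.ad K L s with hA
  have hfin : {c : K | A.HasEigenvalue c}.Finite := Module.End.finite_hasEigenvalue A
  set E : Finset K := hfin.toFinset with hE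
  have hmemE : ∀ c, c ∈ E ↔ A.HasEigenvalue c := by
    intro c; simp [hE]
  have hPE : ∀ c, ∀ y ∈ A.eigenspace c, y ≠ 0 → c ∈ E := by
    intro c y hy hy0
    rw [hmemE]
    exact Module.End.hasEigenvalue_of_hasEigenvector ⟨hy, hy0⟩
  -- the rational functional
  have : Finite {c : K // c ∈ E ∧ c ≠ 0} :=
    Finite.of_injective (fun c : {c : K // c ∈ E ∧ c ≠ 0} => (⟨c.1, c.2.1⟩ : E))
      (fun a b h => Subtype.ext (by simpa using h))
  obtain ⟨ψ, hψ⟩ := Module.exists_dual_forall_apply_ne_zero (K := ℚ) (M := K)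
    (ι := {c : K // c ∈ E ∧ c ≠ 0}) (fun c => c.1) (fun c => c.2.2)
  obtain ⟨m, hm, hmz⟩ := exists_int_scale E (fun c => ψ c)
  set φ : K → K := fun c => (((m : ℚ) * ψ c : ℚ) : K) with hφ
  have hφadd : ∀ c d, φ (c + d) = φ c + φ d := by
    intro c d
    simp only [hφ, map_add, mul_add]
    push_cast
    ring
  have hφ0 : φ 0 = 0 := by simp [hφ]
  have hφne : ∀ c ∈ E, c ≠ 0 → φ c ≠ 0 := by
    intro c hc hc0 h
    have h1 := hψ ⟨c, hc, hc0⟩
    simp only [hφ] at h
    rw [Rat.cast_eq_zero] at h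
    rcases mul_eq_zero.1 h with h | h
    · exact hm (by exact_mod_cast h)
    · exact h1 h
  -- polynomials in A
  have hpol : ∀ g : K → K, ∃ D : Module.End K L, ∀ c, ∀ y ∈ A.eigenspace c, D y = g c • y := by
    intro g
    refine ⟨Polynomial.aeval A (Lagrange.interpolate E id g), ?_⟩
    intro c y hy
    by_cases hy0 : y = 0
    · subst hy0; simp
    · rw [Module.End.aeval_apply_of_hasEigenvector ⟨hy, hy0⟩]
      congr 1
      have := Lagrange.eval_interpolate_at_node g (s := E) (v := id)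
        (fun a _ b _ h => h) (hPE c y hy hy0)
      simpa using this
  obtain ⟨D, hD⟩ := hpol φ
  have htop : ⨆ c : K, A.eigenspace c = ⊤ := hs.iSup_eigenspace_eq_top
  have hbr : ∀ c d, ∀ y ∈ A.eigenspace c, ∀ z ∈ A.eigenspace d,
      ⁅y, z⁆ ∈ A.eigenspace (c + d) := by
    intro c d y hy z hz
    rw [Module.End.mem_eigenspace_iff] at hy hz ⊢
    simp only [hA, LieAlgebra.ad_apply] at hy hz ⊢
    rw [leibniz_lie, hy, hz, smul_lie, lie_smul, add_smul]
  obtain ⟨F, hF⟩ := derivation_of_grading (fun c : K => A.eigenspace c) htop D φ hD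
    (fun c d y hy z hz => by rw [hD _ _ (hbr c d y hy z hz), hφadd])
  obtain ⟨w, hw⟩ := LieDerivation.IsKilling.exists_eq_ad F
  have hwD : ∀ y, ⁅w, y⁆ = D y := by
    intro y
    rw [← hF, ← hw]
    simp
  refine ⟨w, ?_, ?_⟩
  · rw [eq_top_iff, ← htop, iSup_le_iff]
    intro c y hy
    by_cases hy0 : y = 0
    · subst hy0; exact Submodule.zero_mem _
    · obtain ⟨j, hj⟩ := hmz c (hPE c y hy hy0)
      refine Submodule.mem_iSup_of_mem j ?_
      rw [mem_dg, hwD, hD c y hy]
      congr 1
      simp only [hφ]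
      rw [hj]
      push_cast
      rfl
  · apply le_antisymm
    · intro x hx
      obtain ⟨Q, hQ⟩ := hpol (fun c => if c = 0 then 0 else c / φ c)
      have h1 : A = Q * D := by
        have h2 : ⨆ c : K, A.eigenspace c ≤ LinearMap.ker (A - Q * D) := by
          rw [iSup_le_iff]
          intro c y hy
          rw [LinearMap.mem_ker, LinearMap.sub_apply, Module.End.mul_apply, hD c y hy, map_smul,
            hQ c y hy, Module.End.mem_eigenspace_iff.1 hy, smul_smul]
          by_cases hy0 : y = 0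
          · subst hy0; simp
          · by_cases hc : c = 0
            · subst hc; simp [hφ0]
            · have h3 := hφne c (hPE c y hy hy0) hc
              rw [if_neg hc, mul_div_cancel₀ _ h3, sub_self]
        rw [htop, top_le_iff, LinearMap.ker_eq_top] at h2
        exact sub_eq_zero.1 h2
      rw [mem_dg, hwD] at hx
      rw [LinearMap.mem_ker]
      have h4 : A x = Q (D x) := by
        conv_lhs => rw [h1]
        rfl
      rw [← hA] at *
      rw [h4, hx]
      simp
    · intro x hx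
      have h1 : x ∈ A.eigenspace 0 := by
        rw [Module.End.mem_eigenspace_iff, zero_smul]
        exact hx
      rw [mem_dg, hwD, hD 0 x h1, hφ0]
      simp

end Pool.Agent.TH606.FL
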