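import Mathlib
import Pool.Agent.TH597.FD.Stm
import Pool.Agent.Helper646.Vdc

set_option autoImplicit false

namespace Pool.Agent.TH606.FD_OSC

open MeasureTheory Set Complex intervalIntegral
open scoped Real

/-- the phase -/
noncomputable def psi (r q t : ℝ) : ℝ := t * r + q * t / (1 + t ^ 2)

/-- its derivative -/
noncomputable def w (r q t : ℝ) : ℝ := r + q * (1 - t ^ 2) / (1 + t ^ 2) ^ 2

/-- the second derivative -/
noncomputable def w' (q t : ℝ) : ℝ := 2 * q * t * (t ^ 2 - 3) / (1 + t ^ 2) ^ 3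

lemma pos1 (t : ℝ) : 0 < 1 + t ^ 2 := by positivity

lemma hasDeriv_psi (r q t : ℝ) : HasDerivAt (psi r q) (w r q t) t := by
  have hp := (pos1 t).ne'
  have h1 : HasDerivAt (fun t : ℝ => 1 + t ^ 2) (2 * t) t := by
    simpa using ((hasDerivAt_pow 2 t).const_add 1)
  have h2 : HasDerivAt (fun t : ℝ => q * t) q t := by
    simpa using (hasDerivAt_id t).const_mul q
  have h3 : HasDerivAt (fun t : ℝ => t * r) r t := by
    simpa using (hasDerivAt_id t).mul_const r
  have h4 := h3.add (h2.div h1 hp)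
  refine h4.congr_deriv ?_
  unfold w
  field_simp
  ring

lemma hasDeriv_w (r q t : ℝ) : HasDerivAt (w r q) (w' q t) t := by
  have hp := (pos1 t).ne'
  have h1 : HasDerivAt (fun t : ℝ => 1 + t ^ 2) (2 * t) t := by
    simpa using ((hasDerivAt_pow 2 t).const_add 1)
  have h2 : HasDerivAt (fun t : ℝ => q * (1 - t ^ 2)) (q * (-(2 * t))) t := by
    simpa using (((hasDerivAt_pow 2 t).const_sub 1).const_mul q)
  have h4 := (h2.div (h1.pow 2) (pow_ne_zero 2 hp)).const_add r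
  refine h4.congr_deriv ?_
  unfold w'
  simp only [Pi.pow_apply]
  field_simp
  push_cast
  ring

lemma cont_w' (q : ℝ) : Continuous (w' q) := by
  unfold w'
  refine Continuous.div (by fun_prop) (by fun_prop) ?_
  intro t
  exact pow_ne_zero 3 (pos1 t).ne'

/-- the oscillating factor -/
noncomputable def g (r q t : ℝ) : ℂ := cexp (((psi r q t : ℝ) : ℂ) * I)

lemma hasDeriv_g (r q t : ℝ) : HasDerivAt (g r q) (I * (w r q t : ℂ) * g r q t) t := by
  have h1 : HasDerivAt (fun t => ((psi r q t : ℝ) : ℂ) * I) ((w r q t : ℂ) * I) t :=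
    ((hasDeriv_psi r q t).ofReal_comp).mul_const I
  have h2 := h1.cexp
  refine h2.congr_deriv ?_
  unfold g
  ring

lemma norm_g (r q t : ℝ) : ‖g r q t‖ = 1 := by
  unfold g
  exact Complex.norm_exp_ofReal_mul_I _

lemma w'_lower {q t : ℝ} (hq : 0 ≤ q) (ht : 2 ≤ t) : q / (4 * t ^ 3) ≤ w' q t := by
  unfold w'
  have ht0 : 0 < t := by linarith
  rw [div_le_div_iff₀ (by positivity) (by positivity)]
  have key : (1 + t ^ 2) ^ 3 ≤ 2 * t * (t ^ 2 - 3) * (4 * t ^ 3) := by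
    have h1 : 4 ≤ t ^ 2 := by nlinarith
    obtain ⟨s, hs⟩ : ∃ s, t ^ 2 = 4 + s := ⟨t ^ 2 - 4, by ring⟩
    have hs0 : 0 ≤ s := by linarith
    have e : 2 * t * (t ^ 2 - 3) * (4 * t ^ 3) = 8 * (t ^ 2) ^ 2 * (t ^ 2 - 3) := by ring
    rw [e, hs]
    nlinarith [pow_nonneg hs0 2, pow_nonneg hs0 3]
  calc q * (1 + t ^ 2) ^ 3 ≤ q * (2 * t * (t ^ 2 - 3) * (4 * t ^ 3)) :=
        mul_le_mul_of_nonneg_left key hq
    _ = 2 * q * t * (t ^ 2 - 3) * (4 * t ^ 3) := by ring

lemma w_lower {r q t : ℝ} (hq : 0 ≤ q) (ht : 0 < t) : r - q / t ^ 2 ≤ w r q t := by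
  unfold w
  have h : -(q / t ^ 2) ≤ q * (1 - t ^ 2) / (1 + t ^ 2) ^ 2 := by
    rw [← neg_div, div_le_div_iff₀ (by positivity) (by positivity)]
    nlinarith [mul_nonneg hq (sq_nonneg t), mul_nonneg hq (sq_nonneg (t ^ 2))]
  linarith

/-- the bound for the oscillating factor -/
lemma phase_bound {c₀ K T a x q r : ℝ} (hc : 0 < c₀) (hK : 1 ≤ K) (hT : 2 ≤ T) (ha : T ≤ a)
    (hax : a ≤ x) (hx : x ≤ K * T) (hq : 0 ≤ q) (hr : c₀ ≤ r) :
    ‖∫ t in a..x, g r q t‖ ≤ (6 * Real.sqrt (8 * K ^ 3 / c₀) + 4 / c₀) * Real.sqrt T := by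
  have hT0 : 0 < T := by linarith
  have hK0 : 0 < K := by linarith
  have hsT : 1 ≤ Real.sqrt T := by
    rw [show (1 : ℝ) = Real.sqrt 1 by simp]
    exact Real.sqrt_le_sqrt (by linarith)
  have hw0 : ∀ t ∈ Icc a x, 0 ≤ w' q t := by
    intro t ht
    have ht2 : 2 ≤ t := by linarith [ht.1]
    refine le_trans ?_ (w'_lower hq ht2)
    have : 0 < t := by linarith
    positivity
  by_cases hcase : c₀ * T ^ 2 / 2 ≤ q
  · have hl : 0 < c₀ / (8 * K ^ 3 * T) := by positivity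
    have hd : 0 < 1 / Real.sqrt (c₀ / (8 * K ^ 3 * T)) := by positivity
    have hwl : ∀ t ∈ Icc a x, c₀ / (8 * K ^ 3 * T) ≤ w' q t := by
      intro t ht
      have ht2 : 2 ≤ t := by linarith [ht.1]
      have ht0 : 0 < t := by linarith
      have htK : t ≤ K * T := ht.2.trans hx
      refine le_trans ?_ (w'_lower hq ht2)
      have h1 : t ^ 3 ≤ (K * T) ^ 3 := pow_le_pow_left₀ ht0.le htK 3
      calc c₀ / (8 * K ^ 3 * T) = (c₀ * T ^ 2 / 2) / (4 * (K * T) ^ 3) := by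
            field_simp
            ring
        _ ≤ q / (4 * t ^ 3) := by gcongr
    have h := Helper646.Vdc.vdc_two (g := g r q) (w := w r q) (w' := w' q) hax hl hd
      (hasDeriv_g r q) (norm_g r q) (hasDeriv_w r q) (cont_w' q) hwl
    refine h.trans ?_
    have e : 2 * (1 / Real.sqrt (c₀ / (8 * K ^ 3 * T)) +
        2 / (c₀ / (8 * K ^ 3 * T) * (1 / Real.sqrt (c₀ / (8 * K ^ 3 * T))))) =
        6 * (Real.sqrt (8 * K ^ 3 / c₀) * Real.sqrt T) := by
      rw [← Real.sqrt_mul (by positivity)]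
      have e1 : 8 * K ^ 3 / c₀ * T = (c₀ / (8 * K ^ 3 * T))⁻¹ := by
        field_simp
      rw [e1, Real.sqrt_inv]
      set y := c₀ / (8 * K ^ 3 * T) with hy
      have hys : 0 < Real.sqrt y := Real.sqrt_pos.2 hl
      have hyy : y = Real.sqrt y * Real.sqrt y := (Real.mul_self_sqrt hl.le).symm
      have h3 : y * (1 / Real.sqrt y) = Real.sqrt y := by
        rw [mul_one_div, div_eq_iff hys.ne']
        exact hyy
      rw [h3]
      field_simp
      norm_num
    rw [e]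
    have : 0 ≤ 4 / c₀ * Real.sqrt T := by positivity
    nlinarith
  · push Not at hcase
    have hμ : 0 < c₀ / 2 := by positivity
    have hwa : c₀ / 2 ≤ w r q a := by
      have ha0 : 0 < a := by linarith
      refine le_trans ?_ (w_lower hq ha0)
      have h1 : q / a ^ 2 ≤ c₀ / 2 := by
        rw [div_le_iff₀ (by positivity)]
        have : T ^ 2 ≤ a ^ 2 := pow_le_pow_left₀ hT0.le ha 2
        nlinarith
      linarith
    have h := Helper646.Vdc.vdc_one (g := g r q) (w := w r q) (w' := w' q) hax hμ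
      (hasDeriv_g r q) (norm_g r q) (hasDeriv_w r q) (cont_w' q) hw0 hwa
    refine h.trans ?_
    have e : 2 / (c₀ / 2) = 4 / c₀ := by field_simp; norm_num
    rw [e]
    have h1 : 0 ≤ 6 * Real.sqrt (8 * K ^ 3 / c₀) * Real.sqrt T := by positivity
    have h2 : 0 < 4 / c₀ := by positivity
    nlinarith

/-- the same for the conjugate -/
noncomputable def gc (r q t : ℝ) : ℂ := cexp (-(((psi r q t : ℝ) : ℂ) * I))

lemma gc_eq (r q t : ℝ) : gc r q t = (starRingEnd ℂ) (g r q t) := by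
  unfold gc g
  rw [← Complex.exp_conj]
  congr 1
  simp

lemma cont_g (r q : ℝ) : Continuous (g r q) :=
  continuous_iff_continuousAt.2 fun t => (hasDeriv_g r q t).continuousAt

lemma cont_gc (r q : ℝ) : Continuous (gc r q) := by
  have : gc r q = fun t => (starRingEnd ℂ) (g r q t) := by
    funext t
    exact gc_eq r q t
  rw [this]
  exact Complex.continuous_conj.comp (cont_g r q)

lemma norm_int_gc (r q a x : ℝ) : ‖∫ t in a..x, gc r q t‖ = ‖∫ t in a..x, g r q t‖ := by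
  have : ∫ t in a..x, gc r q t = (starRingEnd ℂ) (∫ t in a..x, g r q t) := by
    simp only [intervalIntegral, map_sub, gc_eq]
    rw [integral_conj, integral_conj]
  rw [this]
  exact RCLike.norm_conj _

/-- the real exponential factor -/
noncomputable def ex (q t : ℝ) : ℝ := Real.exp (-(q / (1 + t ^ 2)))

lemma one_sub_ne (t : ℝ) : (1 - (t : ℂ) * I) ≠ 0 := by
  intro h
  have := congrArg Complex.re h
  simp at this

lemma wker_eq (n : ℕ) (r q t : ℝ) :
    Pool.Agent.TH597.FD.wker n r q t =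
      (Pool.Agent.TH597.FD.amp n t * (ex q t : ℂ)) * gc r q t := by
  unfold Pool.Agent.TH597.FD.wker ex gc psi
  rw [mul_assoc, mul_assoc]
  congr 1
  rw [Complex.ofReal_exp, ← Complex.exp_add, ← Complex.exp_add]
  congr 1
  have h1 : (1 : ℂ) + (t : ℂ) ^ 2 ≠ 0 := by
    have := (pos1 t).ne'
    exact_mod_cast this
  have h2 := one_sub_ne t
  have h3 : (1 : ℂ) + (t : ℂ) ^ 2 = (1 - (t : ℂ) * I) * (1 + (t : ℂ) * I) := by
    ring_nf
    rw [Complex.I_sq]
    ring
  push_cast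
  have h4 : (q : ℂ) / (1 - (t : ℂ) * I) = (q : ℂ) * (1 + (t : ℂ) * I) / (1 + (t : ℂ) ^ 2) := by
    rw [div_eq_div_iff h2 h1, h3]
    ring
  rw [h4]
  field_simp
  ring

/-- derivative of the amplitude -/
noncomputable def amp' (n : ℕ) (t : ℝ) : ℂ :=
  (-((n : ℂ) / 2)) * (4 * (π : ℂ) * (1 - t * I)) ^ (-((n : ℂ) / 2) - 1) * (-(4 * (π : ℂ) * I))

lemma base_re (t : ℝ) : 0 < (4 * (π : ℂ) * (1 - t * I)).re := by
  have : (4 * (π : ℂ) * (1 - t * I)).re = 4 * π := by
    simp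
  rw [this]
  positivity

lemma hasDeriv_amp (n : ℕ) (t : ℝ) :
    HasDerivAt (Pool.Agent.TH597.FD.amp n) (amp' n t) t := by
  have h1 : HasDerivAt (fun t : ℝ => 4 * (π : ℂ) * (1 - (t : ℂ) * I)) (-(4 * (π : ℂ) * I)) t := by
    have h0 : HasDerivAt (fun t : ℝ => (t : ℂ)) 1 t := by
      simpa using (hasDerivAt_id t).ofReal_comp
    have := ((h0.mul_const I).const_sub 1).const_mul (4 * (π : ℂ))
    refine this.congr_deriv ?_
    ring
  have h2 : (4 * (π : ℂ) * (1 - (t : ℂ) * I)) ∈ Complex.slitPlane := Or.inl (base_re t)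
  have h3 := (hasDerivAt_id (4 * (π : ℂ) * (1 - (t : ℂ) * I))).cpow_const
    (c := -((n : ℂ) / 2)) h2
  have h4 := HasDerivAt.comp_of_eq t h3 h1 rfl
  refine h4.congr_deriv ?_
  unfold amp'
  simp

lemma norm_base (t : ℝ) : ‖(4 * (π : ℂ) * (1 - t * I))‖ = 4 * π * Real.sqrt (1 + t ^ 2) := by
  rw [norm_mul, norm_mul, Complex.norm_real, Real.norm_eq_abs, abs_of_pos Real.pi_pos]
  have h : ‖(1 - (t : ℂ) * I)‖ = Real.sqrt (1 + t ^ 2) := by
    rw [Complex.norm_eq_sqrt_sq_add_sq]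
    simp
  rw [h]
  norm_num

lemma base_ge {T t : ℝ} (hT : 2 ≤ T) (ht : T ≤ t) : 4 * π * T ≤ 4 * π * Real.sqrt (1 + t ^ 2) := by
  have h1 : T ≤ Real.sqrt (1 + t ^ 2) := by
    apply Real.le_sqrt_of_sq_le
    nlinarith
  have : 0 < 4 * π := by positivity
  exact mul_le_mul_of_nonneg_left h1 this.le

lemma four_pi_ge : (1 : ℝ) ≤ 4 * π := by
  have := Real.pi_gt_three
  linarith

lemma norm_amp_le (n : ℕ) {T t : ℝ} (hT : 2 ≤ T) (ht : T ≤ t) :
    ‖Pool.Agent.TH597.FD.amp n t‖ ≤ T ^ (-((n : ℝ) / 2)) := by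
  unfold Pool.Agent.TH597.FD.amp
  have e : (-((n : ℂ) / 2)) = (((-((n : ℝ) / 2)) : ℝ) : ℂ) := by push_cast; ring
  rw [e, Complex.norm_cpow_real, norm_base]
  apply Real.rpow_le_rpow_of_nonpos (by linarith)
  · have h1 := base_ge hT ht
    have h2 := four_pi_ge
    nlinarith
  · have : (0 : ℝ) ≤ (n : ℝ) / 2 := by positivity
    linarith

lemma norm_amp'_le (n : ℕ) {T t : ℝ} (hT : 2 ≤ T) (ht : T ≤ t) :
    ‖amp' n t‖ ≤ (n : ℝ) / 2 * T ^ (-((n : ℝ) / 2)) / T := by
  have hT0 : 0 < T := by linarith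
  unfold amp'
  rw [norm_mul, norm_mul]
  have e : (-((n : ℂ) / 2) - 1) = (((-((n : ℝ) / 2) - 1) : ℝ) : ℂ) := by push_cast; ring
  rw [e, Complex.norm_cpow_real, norm_base]
  have hpi : ‖-(4 * (π : ℂ) * I)‖ = 4 * π := by
    rw [norm_neg, norm_mul, norm_mul, Complex.norm_I, Complex.norm_real, Real.norm_eq_abs,
      abs_of_pos Real.pi_pos]
    norm_num
  rw [hpi]
  have hn : ‖-((n : ℂ) / 2)‖ = (n : ℝ) / 2 := by
    rw [norm_neg, norm_div]
    simp
  rw [hn]
  have h1 := base_ge hT ht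
  have h2 := four_pi_ge
  have hB : 0 < 4 * π * Real.sqrt (1 + t ^ 2) := by
    have : 0 < 4 * π * T := by positivity
    linarith
  set B := 4 * π * Real.sqrt (1 + t ^ 2) with hBd
  have h3 : B ^ (-((n : ℝ) / 2) - 1) = B ^ (-((n : ℝ) / 2)) / B := by
    rw [Real.rpow_sub hB, Real.rpow_one]
  rw [h3]
  have h4 : B ^ (-((n : ℝ) / 2)) ≤ T ^ (-((n : ℝ) / 2)) := by
    apply Real.rpow_le_rpow_of_nonpos (by linarith)
    · nlinarith
    · have : (0 : ℝ) ≤ (n : ℝ) / 2 := by positivity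
      linarith
  have h5 : 4 * π / B ≤ 1 / T := by
    rw [div_le_div_iff₀ hB hT0]
    linarith
  have h6 : 0 ≤ B ^ (-((n : ℝ) / 2)) := Real.rpow_nonneg hB.le _
  have hn0 : (0 : ℝ) ≤ (n : ℝ) / 2 := by positivity
  calc (n : ℝ) / 2 * (B ^ (-((n : ℝ) / 2)) / B) * (4 * π)
      = ((n : ℝ) / 2 * B ^ (-((n : ℝ) / 2))) * (4 * π / B) := by ring
    _ ≤ ((n : ℝ) / 2 * T ^ (-((n : ℝ) / 2))) * (1 / T) := by
        gcongr
    _ = (n : ℝ) / 2 * T ^ (-((n : ℝ) / 2)) / T := by ring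

/-- derivative of the exponential factor -/
noncomputable def ex' (q t : ℝ) : ℝ := ex q t * (2 * q * t / (1 + t ^ 2) ^ 2)

lemma hasDeriv_ex (q t : ℝ) : HasDerivAt (ex q) (ex' q t) t := by
  have hp := (pos1 t).ne'
  have h1 : HasDerivAt (fun t : ℝ => 1 + t ^ 2) (2 * t) t := by
    simpa using ((hasDerivAt_pow 2 t).const_add 1)
  have h2 : HasDerivAt (fun t : ℝ => -(q / (1 + t ^ 2))) (2 * q * t / (1 + t ^ 2) ^ 2) t := by
    have := ((hasDerivAt_const t q).div h1 hp).neg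
    refine this.congr_deriv ?_
    field_simp
    ring
  exact h2.exp

lemma ex_nonneg (q t : ℝ) : 0 ≤ ex q t := (Real.exp_pos _).le

lemma x_lower {K T t q : ℝ} (hK : 1 ≤ K) (hT : 2 ≤ T) (hTt : T ≤ t) (ht : t ≤ K * T) (hq : 0 ≤ q) :
    q / (2 * K ^ 2 * T ^ 2) ≤ q / (1 + t ^ 2) := by
  apply div_le_div_of_nonneg_left hq (pos1 t)
  have h1 : t ^ 2 ≤ (K * T) ^ 2 := pow_le_pow_left₀ (by linarith) ht 2
  have h2 : 1 ≤ (K * T) ^ 2 := by
    have : 1 ≤ K * T := by nlinarith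
    nlinarith
  nlinarith

lemma ex_le {K T t q : ℝ} (hK : 1 ≤ K) (hT : 2 ≤ T) (hTt : T ≤ t) (ht : t ≤ K * T) (hq : 0 ≤ q) :
    ex q t ≤ Real.exp (-(1 / (4 * K ^ 2) * q / T ^ 2)) := by
  unfold ex
  apply Real.exp_le_exp.2
  have h1 := x_lower hK hT hTt ht hq
  have hT0 : 0 < T := by linarith
  have hK0 : 0 < K := by linarith
  have h2 : 1 / (4 * K ^ 2) * q / T ^ 2 = (q / (2 * K ^ 2 * T ^ 2)) / 2 := by
    field_simp
    ring
  have h3 : 0 ≤ q / (2 * K ^ 2 * T ^ 2) := by positivity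
  rw [h2]
  linarith

lemma ex'_le {K T t q : ℝ} (hK : 1 ≤ K) (hT : 2 ≤ T) (hTt : T ≤ t) (ht : t ≤ K * T) (hq : 0 ≤ q) :
    |ex' q t| ≤ 2 / T * Real.exp (-(1 / (4 * K ^ 2) * q / T ^ 2)) := by
  have hT0 : 0 < T := by linarith
  have hK0 : 0 < K := by linarith
  have ht0 : 0 < t := by linarith
  have hp := pos1 t
  unfold ex'
  have hnn : 0 ≤ ex q t * (2 * q * t / (1 + t ^ 2) ^ 2) :=
    mul_nonneg (ex_nonneg q t) (by positivity)
  rw [abs_of_nonneg hnn]
  set x := q / (1 + t ^ 2) with hx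
  have hx0 : 0 ≤ x := by positivity
  have e1 : ex q t * (2 * q * t / (1 + t ^ 2) ^ 2) =
      (x * Real.exp (-x)) * (2 * t / (1 + t ^ 2)) := by
    unfold ex
    rw [← hx]
    have : 2 * q * t / (1 + t ^ 2) ^ 2 = x * (2 * t / (1 + t ^ 2)) := by
      rw [hx]
      field_simp
    rw [this]
    ring
  rw [e1]
  have h2 : x * Real.exp (-x) ≤ Real.exp (-(x / 2)) := by
    have h3 : x ≤ Real.exp (x / 2) := by
      have h4 : x / 4 + 1 ≤ Real.exp (x / 4) := Real.add_one_le_exp _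
      have h5 : Real.exp (x / 2) = Real.exp (x / 4) * Real.exp (x / 4) := by
        rw [← Real.exp_add]
        congr 1
        ring
      rw [h5]
      have h6 : 0 ≤ x / 4 + 1 := by positivity
      nlinarith [mul_self_le_mul_self h6 h4, sq_nonneg (x / 4 - 1)]
    have e2 : Real.exp (-(x / 2)) = Real.exp (x / 2) * Real.exp (-x) := by
      rw [← Real.exp_add]
      congr 1
      ring
    rw [e2]
    exact mul_le_mul_of_nonneg_right h3 (Real.exp_pos _).le
  have h3 : 2 * t / (1 + t ^ 2) ≤ 2 / T := by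
    rw [div_le_div_iff₀ hp hT0]
    nlinarith
  have h4 : Real.exp (-(x / 2)) ≤ Real.exp (-(1 / (4 * K ^ 2) * q / T ^ 2)) := by
    apply Real.exp_le_exp.2
    have h1 := x_lower hK hT hTt ht hq
    have h2 : 1 / (4 * K ^ 2) * q / T ^ 2 = (q / (2 * K ^ 2 * T ^ 2)) / 2 := by
      field_simp
      ring
    rw [h2]
    linarith
  calc (x * Real.exp (-x)) * (2 * t / (1 + t ^ 2))
      ≤ Real.exp (-(1 / (4 * K ^ 2) * q / T ^ 2)) * (2 / T) := by
        apply mul_le_mul (h2.trans h4) h3 (by positivity) (Real.exp_pos _).le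
    _ = _ := by ring

/-- the full amplitude -/
noncomputable def A (n : ℕ) (q t : ℝ) : ℂ := Pool.Agent.TH597.FD.amp n t * (ex q t : ℂ)

/-- its derivative -/
noncomputable def A' (n : ℕ) (q t : ℝ) : ℂ :=
  amp' n t * (ex q t : ℂ) + Pool.Agent.TH597.FD.amp n t * (ex' q t : ℂ)

lemma hasDeriv_A (n : ℕ) (q t : ℝ) : HasDerivAt (A n q) (A' n q t) t :=
  (hasDeriv_amp n t).mul (hasDeriv_ex q t).ofReal_comp

lemma cont_ex (q : ℝ) : Continuous (ex q) :=
  continuous_iff_continuousAt.2 fun t => (hasDeriv_ex q t).continuousAt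

lemma cont_ex' (q : ℝ) : Continuous (ex' q) := by
  unfold ex'
  refine (cont_ex q).mul (Continuous.div (by fun_prop) (by fun_prop) ?_)
  intro t
  exact pow_ne_zero 2 (pos1 t).ne'

lemma cont_amp (n : ℕ) : Continuous (Pool.Agent.TH597.FD.amp n) :=
  continuous_iff_continuousAt.2 fun t => (hasDeriv_amp n t).continuousAt

lemma cont_amp' (n : ℕ) : Continuous (amp' n) := by
  unfold amp'
  refine Continuous.mul (Continuous.mul continuous_const ?_) continuous_const
  refine Continuous.cpow (by fun_prop) continuous_const ?_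
  intro t
  exact Or.inl (base_re t)

lemma cont_A' (n : ℕ) (q : ℝ) : Continuous (A' n q) := by
  unfold A'
  exact ((cont_amp' n).mul (Complex.continuous_ofReal.comp (cont_ex q))).add
    ((cont_amp n).mul (Complex.continuous_ofReal.comp (cont_ex' q)))

theorem osc : Pool.Agent.TH597.FD.OSC := by
  intro n c₀ K hc hK
  have hK0 : 0 < K := by linarith
  set C1 : ℝ := 6 * Real.sqrt (8 * K ^ 3 / c₀) + 4 / c₀ with hC1
  have hC1p : 0 < C1 := by positivity
  refine ⟨C1 * (1 + ((n : ℝ) / 2 + 2) * K), 1 / (4 * K ^ 2), by positivity, by positivity, ?_⟩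
  intro T hT a b ha hab hb q hq r hr
  have hT0 : 0 < T := by linarith
  set E := Real.exp (-(1 / (4 * K ^ 2) * q / T ^ 2)) with hE
  have hE0 : 0 < E := Real.exp_pos _
  set P := T ^ (-((n : ℝ) / 2)) with hP
  have hP0 : 0 < P := Real.rpow_pos_of_pos hT0 _
  -- the primitive of the oscillating factor
  set G : ℝ → ℂ := fun x => ∫ t in a..x, gc r q t with hG
  have hGd : ∀ x, HasDerivAt G (gc r q x) x := by
    intro x
    exact intervalIntegral.integral_hasDerivAt_right ((cont_gc r q).intervalIntegrable _ _)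
      ((cont_gc r q).stronglyMeasurableAtFilter _ _) (cont_gc r q).continuousAt
  have hGb : ∀ x ∈ Icc a b, ‖G x‖ ≤ C1 * Real.sqrt T := by
    intro x hx
    rw [hG]
    simp only
    rw [norm_int_gc]
    exact phase_bound hc hK hT ha hx.1 (hx.2.trans hb) hq hr
  have hGa : G a = 0 := by
    rw [hG]
    simp
  have hparts : ∫ t in a..b, A n q t * gc r q t =
      A n q b * G b - A n q a * G a - ∫ t in a..b, A' n q t * G t := by
    apply intervalIntegral.integral_mul_deriv_eq_deriv_mul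
    · intro x _
      exact hasDeriv_A n q x
    · intro x _
      exact hGd x
    · exact (cont_A' n q).intervalIntegrable _ _
    · exact (cont_gc r q).intervalIntegrable _ _
  have hW : Pool.Agent.TH597.FD.W n a b r q = A n q b * G b - ∫ t in a..b, A' n q t * G t := by
    unfold Pool.Agent.TH597.FD.W
    have : (fun t => Pool.Agent.TH597.FD.wker n r q t) = fun t => A n q t * gc r q t := by
      funext t
      exact wker_eq n r q t
    rw [this, hparts, hGa]
    ring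
  have hAb : ‖A n q b‖ ≤ P * E := by
    unfold A
    rw [norm_mul, Complex.norm_real, Real.norm_eq_abs, abs_of_nonneg (ex_nonneg q b)]
    exact mul_le_mul (norm_amp_le n hT (ha.trans hab)) (ex_le hK hT (ha.trans hab) hb hq)
      (ex_nonneg _ _) hP0.le
  have hA' : ∀ t ∈ Icc a b, ‖A' n q t‖ ≤ ((n : ℝ) / 2 + 2) * P / T * E := by
    intro t ht
    have hTt : T ≤ t := ha.trans ht.1
    have htK : t ≤ K * T := ht.2.trans hb
    unfold A'
    refine (norm_add_le _ _).trans ?_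
    rw [norm_mul, norm_mul, Complex.norm_real, Complex.norm_real, Real.norm_eq_abs,
      Real.norm_eq_abs, abs_of_nonneg (ex_nonneg q t)]
    have h1 : ‖amp' n t‖ * ex q t ≤ ((n : ℝ) / 2 * P / T) * E :=
      mul_le_mul (norm_amp'_le n hT hTt) (ex_le hK hT hTt htK hq) (ex_nonneg _ _) (by positivity)
    have h2 : ‖Pool.Agent.TH597.FD.amp n t‖ * |ex' q t| ≤ P * (2 / T * E) :=
      mul_le_mul (norm_amp_le n hT hTt) (ex'_le hK hT hTt htK hq) (abs_nonneg _) hP0.le
    calc _ ≤ ((n : ℝ) / 2 * P / T) * E + P * (2 / T * E) := add_le_add h1 h2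
      _ = _ := by ring
  have hint : ‖∫ t in a..b, A' n q t * G t‖ ≤
      (((n : ℝ) / 2 + 2) * P / T * E * (C1 * Real.sqrt T)) * |b - a| := by
    apply intervalIntegral.norm_integral_le_of_norm_le_const
    intro t ht
    rw [uIoc_of_le hab] at ht
    have ht' : t ∈ Icc a b := ⟨ht.1.le, ht.2⟩
    rw [norm_mul]
    exact mul_le_mul (hA' t ht') (hGb t ht') (norm_nonneg _) (by positivity)
  rw [hW]
  refine (norm_sub_le _ _).trans ?_
  rw [norm_mul]
  have hbb : b ∈ Icc a b := ⟨hab, le_refl b⟩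
  have h1 : ‖A n q b‖ * ‖G b‖ ≤ (P * E) * (C1 * Real.sqrt T) :=
    mul_le_mul hAb (hGb b hbb) (norm_nonneg _) (by positivity)
  have hba : |b - a| ≤ K * T := by
    rw [abs_of_nonneg (by linarith)]
    linarith
  have h2 : (((n : ℝ) / 2 + 2) * P / T * E * (C1 * Real.sqrt T)) * |b - a| ≤
      (((n : ℝ) / 2 + 2) * P / T * E * (C1 * Real.sqrt T)) * (K * T) := by
    apply mul_le_mul_of_nonneg_left hba
    positivity
  have h3 : (P * E) * (C1 * Real.sqrt T) +
      (((n : ℝ) / 2 + 2) * P / T * E * (C1 * Real.sqrt T)) * (K * T) =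
      C1 * (1 + ((n : ℝ) / 2 + 2) * K) * (P * Real.sqrt T) * E := by
    field_simp
  have h4 : P * Real.sqrt T = T ^ ((1 - (n : ℝ)) / 2) := by
    rw [hP, Real.sqrt_eq_rpow, ← Real.rpow_add hT0]
    congr 1
    ring
  calc ‖A n q b‖ * ‖G b‖ + ‖∫ t in a..b, A' n q t * G t‖
      ≤ (P * E) * (C1 * Real.sqrt T) +
      (((n : ℝ) / 2 + 2) * P / T * E * (C1 * Real.sqrt T)) * (K * T) := by
        linarith [hint.trans h2]
    _ = C1 * (1 + ((n : ℝ) / 2 + 2) * K) * T ^ ((1 - (n : ℝ)) / 2) * E := by rw [h3, h4]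

end Pool.Agent.TH606.FD_OSC
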