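import Pool.Agent.TH83.DC.GDefs

/-!
DC-gaincore (MP_120218_co, job 2350).
-/

set_option autoImplicit false

namespace Pool.Agent.TH606.DC2350

open Finset Pool.Agent.TH83.DC
open scoped Classical

theorem wt_nonneg (a : ℕ) : 0 ≤ wt a := Real.log_natCast_nonneg _

theorem wt_mul_le (a b : ℕ) : wt (a * b) ≤ wt a + wt b := by
  by_cases h : a * b = 0
  · rw [h]
    have : wt 0 = 0 := by simp [wt]
    rw [this]
    exact add_nonneg (wt_nonneg a) (wt_nonneg b)
  · have ha : a ≠ 0 := left_ne_zero_of_mul h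
    have hb : b ≠ 0 := right_ne_zero_of_mul h
    have h1 : (a * b).divisors.card ≤ a.divisors.card * b.divisors.card := by
      rw [Nat.divisors_mul]
      exact Finset.card_mul_le
    have ha' : 0 < a.divisors.card := Finset.card_pos.2 ⟨1, Nat.one_mem_divisors.2 ha⟩
    have hb' : 0 < b.divisors.card := Finset.card_pos.2 ⟨1, Nat.one_mem_divisors.2 hb⟩
    have hab' : 0 < (a * b).divisors.card := Finset.card_pos.2 ⟨1, Nat.one_mem_divisors.2 h⟩
    unfold wt
    rw [← Real.log_mul (by positivity) (by positivity)]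
    apply Real.log_le_log (by exact_mod_cast hab')
    exact_mod_cast h1

theorem wt_prod_le {ι : Type*} (s : Finset ι) (c : ι → ℕ) :
    wt (∏ j ∈ s, c j) ≤ ∑ j ∈ s, wt (c j) := by
  induction s using Finset.induction_on with
  | empty => simp [wt]
  | insert a s ha ih =>
    rw [Finset.prod_insert ha, Finset.sum_insert ha]
    exact (wt_mul_le _ _).trans (by linarith)

theorem wt_le_of_dvd {a b : ℕ} (h : a ∣ b) (hb : b ≠ 0) : wt a ≤ wt b := by
  have ha : a ≠ 0 := fun h0 => hb (by rw [h0] at h; exact zero_dvd_iff.1 h)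
  have ha' : 0 < a.divisors.card := Finset.card_pos.2 ⟨1, Nat.one_mem_divisors.2 ha⟩
  unfold wt
  apply Real.log_le_log (by exact_mod_cast ha')
  exact_mod_cast Finset.card_le_card (Nat.divisors_subset_of_dvd hb h)

theorem sum_sq_le {ι : Type*} (s : Finset ι) (b : ι → ℝ) (hb : ∀ j ∈ s, 0 ≤ b j) :
    ∑ j ∈ s, b j ^ 2 ≤ (∑ j ∈ s, b j) ^ 2 := by
  induction s using Finset.induction_on with
  | empty => simp
  | insert a s ha ih =>
    rw [Finset.sum_insert ha, Finset.sum_insert ha]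
    have h1 := ih (fun j hj => hb j (Finset.mem_insert_of_mem hj))
    have h2 : 0 ≤ b a := hb a (Finset.mem_insert_self _ _)
    have h3 : 0 ≤ ∑ j ∈ s, b j := Finset.sum_nonneg fun j hj => hb j (Finset.mem_insert_of_mem hj)
    nlinarith [mul_nonneg h2 h3]

theorem sum_sq_le_two {ι : Type*} (s : Finset ι) (b : ι → ℝ) (hb : ∀ j ∈ s, 0 ≤ b j)
    {j₁ j₂ : ι} (h₁ : j₁ ∈ s) (h₂ : j₂ ∈ s) (hne : j₁ ≠ j₂) :
    ∑ j ∈ s, b j ^ 2 + 2 * (b j₁ * b j₂) ≤ (∑ j ∈ s, b j) ^ 2 := by
  have h2' : j₂ ∈ s.erase j₁ := Finset.mem_erase.2 ⟨hne.symm, h₂⟩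
  rw [← Finset.add_sum_erase s _ h₁, ← Finset.add_sum_erase s b h₁,
    ← Finset.add_sum_erase _ _ h2', ← Finset.add_sum_erase _ b h2']
  have h3 := sum_sq_le ((s.erase j₁).erase j₂) b
    (fun j hj => hb j (Finset.mem_of_mem_erase (Finset.mem_of_mem_erase hj)))
  have h4 : 0 ≤ ∑ j ∈ (s.erase j₁).erase j₂, b j :=
    Finset.sum_nonneg fun j hj => hb j (Finset.mem_of_mem_erase (Finset.mem_of_mem_erase hj))
  have h5 := hb j₁ h₁
  have h6 := hb j₂ h₂
  nlinarith [mul_nonneg h4 h5, mul_nonneg h4 h6]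

/-- splitting a number never decreases the sum of the square roots of the weights -/
theorem sqrt_wt_le {k : ℕ} (c : Fin k → ℕ) (a : ℕ) (h : ∏ j, c j = a) :
    Real.sqrt (wt a) ≤ ∑ j, Real.sqrt (wt (c j)) := by
  apply Real.sqrt_le_iff.2
  refine ⟨Finset.sum_nonneg fun j _ => Real.sqrt_nonneg _, ?_⟩
  have h1 := sum_sq_le Finset.univ (fun j => Real.sqrt (wt (c j))) (fun j _ => Real.sqrt_nonneg _)
  have h2 : ∑ j, Real.sqrt (wt (c j)) ^ 2 = ∑ j, wt (c j) :=
    Finset.sum_congr rfl fun j _ => Real.sq_sqrt (wt_nonneg _)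
  rw [h2] at h1
  have h3 := wt_prod_le Finset.univ c
  rw [h] at h3
  linarith

theorem sqrt_gain {a u K : ℝ} (ha : 0 ≤ a) (hu : 0 < u) (haK : a ≤ K) (huK : 2 * u ≤ K) :
    Real.sqrt a + u / Real.sqrt (2 * K) ≤ Real.sqrt (a + 2 * u) := by
  have hK : 0 < K := by linarith
  set s := Real.sqrt a
  set t := Real.sqrt (a + 2 * u)
  set q := Real.sqrt (2 * K)
  have hs : s ^ 2 = a := Real.sq_sqrt ha
  have ht : t ^ 2 = a + 2 * u := Real.sq_sqrt (by linarith)
  have hq0 : 0 < q := Real.sqrt_pos.2 (by linarith)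
  have hs0 : 0 ≤ s := Real.sqrt_nonneg _
  have ht0 : 0 ≤ t := Real.sqrt_nonneg _
  have htq : t ≤ q := Real.sqrt_le_sqrt (by linarith)
  have hsq : s ≤ q := Real.sqrt_le_sqrt (by linarith)
  have hst : s ≤ t := Real.sqrt_le_sqrt (by linarith)
  have h1 : u / q ≤ t - s := by
    rw [div_le_iff₀ hq0]
    nlinarith
  linarith

theorem sqrt_wt_gain {k : ℕ} (hk : 0 < k) (c : Fin k → ℕ) (a : ℕ) (h : ∏ j, c j = a) {u K : ℝ}
    (hu : 0 < u) (haK : wt a ≤ K) (huK : 2 * u ≤ K) (hT : ¬ Triv u c) :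
    Real.sqrt (wt a) + u / Real.sqrt (2 * K) ≤ ∑ j, Real.sqrt (wt (c j)) := by
  unfold Triv at hT
  push Not at hT
  obtain ⟨j₁, -, h1⟩ := hT ⟨0, hk⟩
  obtain ⟨j₂, hne, h2⟩ := hT j₁
  refine (sqrt_gain (wt_nonneg a) hu haK huK).trans ?_
  apply Real.sqrt_le_iff.2
  refine ⟨Finset.sum_nonneg fun j _ => Real.sqrt_nonneg _, ?_⟩
  have h3 := sum_sq_le_two Finset.univ (fun j => Real.sqrt (wt (c j)))
    (fun j _ => Real.sqrt_nonneg _) (Finset.mem_univ j₂) (Finset.mem_univ j₁) hne
  have h4 : ∑ j, Real.sqrt (wt (c j)) ^ 2 = ∑ j, wt (c j) :=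
    Finset.sum_congr rfl fun j _ => Real.sq_sqrt (wt_nonneg _)
  rw [h4] at h3
  have h5 := wt_prod_le Finset.univ c
  rw [h] at h5
  have h6 : u ≤ Real.sqrt (wt (c j₂)) * Real.sqrt (wt (c j₁)) := by
    rw [← Real.sqrt_mul (wt_nonneg _)]
    apply Real.le_sqrt_of_sq_le
    nlinarith
  linarith

theorem w_sum {A : Finset ℕ} (hA : A.Nonempty) (E : Expt A) : ∑ ω, E.w ω = 1 := by
  have h := E.root_law (fun _ => 1)
  simp only [mul_one, Finset.sum_const, nsmul_eq_mul] at h
  rw [h]
  have : (A.card : ℝ) ≠ 0 := by exact_mod_cast (Finset.card_pos.2 hA).ne'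
  field_simp

theorem P_sum {A : Finset ℕ} (hA : A.Nonempty) (E : Expt A) (k : ℕ) :
    ∑ z : Fin k → E.Ω, ∏ i, E.w (z i) = 1 := by
  have h := Finset.prod_univ_sum (fun _ : Fin k => (Finset.univ : Finset E.Ω))
    (fun _ ω => E.w ω)
  rw [Fintype.piFinset_univ] at h
  rw [← h]
  simp [w_sum hA E]

theorem P_marg {A : Finset ℕ} (hA : A.Nonempty) (E : Expt A) (k : ℕ) (i₀ : Fin k)
    (F : E.Ω → ℝ) :
    ∑ z : Fin k → E.Ω, (∏ i, E.w (z i)) * F (z i₀) = ∑ ω, E.w ω * F ω := by
  have h := Finset.prod_univ_sum (fun _ : Fin k => (Finset.univ : Finset E.Ω))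
    (fun i ω => E.w ω * (if i = i₀ then F ω else 1))
  rw [Fintype.piFinset_univ] at h
  have h1 : ∀ z : Fin k → E.Ω, ∏ i, (E.w (z i) * (if i = i₀ then F (z i) else 1)) =
      (∏ i, E.w (z i)) * F (z i₀) := by
    intro z
    rw [Finset.prod_mul_distrib]
    simp
  simp only [h1] at h
  rw [← h, Finset.prod_eq_single i₀]
  · simp
  · intro i _ hi
    simp [hi, w_sum hA E]
  · simp

theorem P_root {A : Finset ℕ} (_hA : A.Nonempty) (E : Expt A) (k : ℕ)
    (G : (Fin k → ℕ) → ℝ) :
    ∑ z : Fin k → E.Ω, (∏ i, E.w (z i)) * G (fun i => E.root (z i)) =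
      (∑ x ∈ tup k A, G x) / (A.card : ℝ) ^ k := by
  have h1 : ∀ z : Fin k → E.Ω, G (fun i => E.root (z i)) =
      ∑ x ∈ tup k A, G x * ∏ i, (if E.root (z i) = x i then (1 : ℝ) else 0) := by
    intro z
    rw [Finset.sum_eq_single (fun i => E.root (z i))]
    · simp
    · intro x _ hx
      have : ∃ i, E.root (z i) ≠ x i := by
        by_contra hcon
        push Not at hcon
        exact hx (funext fun i => (hcon i).symm)
      obtain ⟨i, hi⟩ := this
      rw [Finset.prod_eq_zero (Finset.mem_univ i) (by simp [hi])]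
      simp
    · intro hx
      exfalso
      apply hx
      unfold tup
      rw [Fintype.mem_piFinset]
      intro i
      exact E.root_mem _
  have h2 : ∀ a ∈ A, ∑ ω, E.w ω * (if E.root ω = a then (1 : ℝ) else 0) = 1 / A.card := by
    intro a ha
    rw [E.root_law (fun b => if b = a then (1 : ℝ) else 0)]
    simp [ha]
  have h3 : ∀ x ∈ tup k A, ∑ z : Fin k → E.Ω, (∏ i, E.w (z i)) *
      (∏ i, (if E.root (z i) = x i then (1 : ℝ) else 0)) = (1 / (A.card : ℝ)) ^ k := by
    intro x hx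
    unfold tup at hx
    rw [Fintype.mem_piFinset] at hx
    have h := Finset.prod_univ_sum (fun _ : Fin k => (Finset.univ : Finset E.Ω))
      (fun i ω => E.w ω * (if E.root ω = x i then (1 : ℝ) else 0))
    rw [Fintype.piFinset_univ] at h
    simp only [← Finset.prod_mul_distrib]
    rw [← h, Finset.prod_congr rfl (fun i _ => h2 (x i) (hx i))]
    simp
  calc ∑ z : Fin k → E.Ω, (∏ i, E.w (z i)) * G (fun i => E.root (z i))
      = ∑ z : Fin k → E.Ω, ∑ x ∈ tup k A, G x * ((∏ i, E.w (z i)) *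
          ∏ i, (if E.root (z i) = x i then (1 : ℝ) else 0)) := by
        apply Finset.sum_congr rfl
        intro z _
        rw [h1 z, Finset.mul_sum]
        apply Finset.sum_congr rfl
        intro x _
        ring
    _ = ∑ x ∈ tup k A, G x * (1 / (A.card : ℝ)) ^ k := by
        rw [Finset.sum_comm]
        apply Finset.sum_congr rfl
        intro x hx
        rw [← Finset.mul_sum, h3 x hx]
    _ = _ := by
        rw [← Finset.sum_mul, one_div, inv_pow, div_eq_mul_inv]

theorem gain_core {A : Finset ℕ} (hA : A.Nonempty) (h0 : 0 ∉ A) (E : Expt A) (k : ℕ) (hk : 0 < k)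
    (R : (Fin k → E.Ω) → (Fin k → ℕ) → Fin k → E.Λ → Fin k → ℕ)
    (hR1 : ∀ z, ∀ y ∈ rep A (fun i => E.root (z i)), ∀ i l, ∏ j, R z y i l j = E.piece (z i) l)
    (u v K M : ℝ) (m : ℕ) (hu : 0 < u) (hK : ∀ a ∈ A, wt a ≤ K) (huK : 2 * u ≤ K)
    (hcount : ∀ z : Fin k → E.Ω,
      (∀ i, (Finset.univ.filter fun l => v ≤ wt (E.piece (z i) l)).card ≤ m) →
      (((rep A fun i => E.root (z i)).filter fun y => ∀ i l, Triv u (R z y i l)).card : ℝ) ≤
        M / 2)
    (p : ℝ) (hp : E.many (m + 1) v ≤ p)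
    (hrare : (((tup k A).filter fun x => ((rep A x).card : ℝ) < M).card : ℝ) ≤
      p * (A.card : ℝ) ^ k) :
    E.pot + (1 - (k + 1) * p) / (2 * k) * (u / Real.sqrt (2 * K)) ≤
      (∑ z : Fin k → E.Ω, (∏ i, E.w (z i)) *
        ((∑ y ∈ rep A (fun i => E.root (z i)), ∑ i, ∑ l, ∑ j, Real.sqrt (wt (R z y i l j))) /
            (rep A (fun i => E.root (z i))).card)) / k := by
  have hk' : (0 : ℝ) < k := by exact_mod_cast hk
  have hAc : (0 : ℝ) < (A.card : ℝ) ^ k := by
    have := Finset.card_pos.2 hA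
    positivity
  have hK0 : 0 < K := by linarith
  set g : ℝ := u / Real.sqrt (2 * K) with hg
  have hg0 : 0 ≤ g := by positivity
  set P : (Fin k → E.Ω) → ℝ := fun z => ∏ i, E.w (z i) with hP
  have hP0 : ∀ z, 0 ≤ P z := fun z => Finset.prod_nonneg fun i _ => E.w_nonneg _
  set base : (Fin k → E.Ω) → ℝ := fun z => ∑ i, ∑ l, Real.sqrt (wt (E.piece (z i) l)) with hbase
  set S : (Fin k → E.Ω) → (Fin k → ℕ) → ℝ :=
    fun z y => ∑ i, ∑ l, ∑ j, Real.sqrt (wt (R z y i l j)) with hS
  set rp : (Fin k → E.Ω) → Finset (Fin k → ℕ) := fun z => rep A (fun i => E.root (z i)) with hrp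
  have hpiece : ∀ ω l, wt (E.piece ω l) ≤ K := by
    intro ω l
    have h1 : E.piece ω l ∣ E.root ω := by
      rw [← E.prod_piece ω]
      exact Finset.dvd_prod_of_mem _ (Finset.mem_univ l)
    have h2 : E.root ω ≠ 0 := fun h => h0 (h ▸ E.root_mem ω)
    exact (wt_le_of_dvd h1 h2).trans (hK _ (E.root_mem ω))
  -- the two lower bounds for `S`
  have hS1 : ∀ z, ∀ y ∈ rp z, base z ≤ S z y := by
    intro z y hy
    apply Finset.sum_le_sum
    intro i _
    apply Finset.sum_le_sum
    intro l _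
    exact sqrt_wt_le _ _ (hR1 z y hy i l)
  have hS2 : ∀ z, ∀ y ∈ rp z, ¬ (∀ i l, Triv u (R z y i l)) → base z + g ≤ S z y := by
    intro z y hy hT
    push Not at hT
    obtain ⟨i₀, l₀, hT⟩ := hT
    have h1 : ∀ i l, 0 ≤ ∑ j, Real.sqrt (wt (R z y i l j)) - Real.sqrt (wt (E.piece (z i) l)) :=
      fun i l => sub_nonneg.2 (sqrt_wt_le _ _ (hR1 z y hy i l))
    have h2 : g ≤ ∑ j, Real.sqrt (wt (R z y i₀ l₀ j)) - Real.sqrt (wt (E.piece (z i₀) l₀)) := by
      have := sqrt_wt_gain hk _ _ (hR1 z y hy i₀ l₀) hu (hpiece (z i₀) l₀) huK hT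
      linarith
    have h3 : S z y - base z = ∑ i, ∑ l, (∑ j, Real.sqrt (wt (R z y i l j)) -
        Real.sqrt (wt (E.piece (z i) l))) := by
      show (∑ i, ∑ l, ∑ j, Real.sqrt (wt (R z y i l j))) - (∑ i, ∑ l,
        Real.sqrt (wt (E.piece (z i) l))) = _
      simp only [Finset.sum_sub_distrib]
    have h4 := Finset.single_le_sum (f := fun l => ∑ j, Real.sqrt (wt (R z y i₀ l j)) -
        Real.sqrt (wt (E.piece (z i₀) l))) (fun l _ => h1 i₀ l) (Finset.mem_univ l₀)
    have h5 := Finset.single_le_sum (f := fun i => ∑ l, (∑ j, Real.sqrt (wt (R z y i l j)) -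
        Real.sqrt (wt (E.piece (z i) l)))) (fun i _ => Finset.sum_nonneg fun l _ => h1 i l)
        (Finset.mem_univ i₀)
    beta_reduce at h4 h5
    linarith
  have hrp0 : ∀ z, (0 : ℝ) < (rp z).card := by
    intro z
    have : (fun i => E.root (z i)) ∈ rp z := by
      exact Finset.mem_filter.2 ⟨Fintype.mem_piFinset.2 fun i => E.root_mem _, rfl⟩
    exact_mod_cast Finset.card_pos.2 ⟨_, this⟩
  -- good and bad points
  set bad1 : (Fin k → E.Ω) → ℝ := fun z => if ((rp z).card : ℝ) < M then 1 else 0 with hbad1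
  set bad2 : E.Ω → ℝ := fun ω =>
    if m + 1 ≤ (Finset.univ.filter fun l => v ≤ wt (E.piece ω l)).card then 1 else 0 with hbad2
  have hb1 : ∀ z, 0 ≤ bad1 z := by
    intro z; simp only [hbad1]; split_ifs <;> norm_num
  have hb2 : ∀ ω, 0 ≤ bad2 ω := by
    intro z; simp only [hbad2]; split_ifs <;> norm_num
  have hmean : ∀ z, base z + (g / 2) * (1 - bad1 z - ∑ i, bad2 (z i)) ≤
      (∑ y ∈ rp z, S z y) / (rp z).card := by
    intro z
    rw [le_div_iff₀ (hrp0 z)]
    have hs0 : 0 ≤ ∑ i, bad2 (z i) := Finset.sum_nonneg fun i _ => hb2 _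
    by_cases hgood : bad1 z = 0 ∧ ∀ i, bad2 (z i) = 0
    · obtain ⟨hg1, hg2⟩ := hgood
      have h1 : M ≤ (rp z).card := by
        by_contra hcon
        push Not at hcon
        simp [hbad1, hcon] at hg1
      have h2 : ∀ i, (Finset.univ.filter fun l => v ≤ wt (E.piece (z i) l)).card ≤ m := by
        intro i
        by_contra hcon
        push Not at hcon
        have := hg2 i
        simp only [hbad2] at this
        rw [if_pos (by omega)] at this
        exact one_ne_zero this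
      have h3 := hcount z h2
      have h4 : ∑ i, bad2 (z i) = 0 := Finset.sum_eq_zero fun i _ => hg2 i
      rw [hg1, h4]
      have h5 : ∑ y ∈ rp z, S z y ≥ ∑ y ∈ rp z,
          (base z + g * (1 - if (∀ i l, Triv u (R z y i l)) then (1 : ℝ) else 0)) := by
        apply Finset.sum_le_sum
        intro y hy
        by_cases hT : ∀ i l, Triv u (R z y i l)
        · rw [if_pos hT]
          have := hS1 z y hy
          linarith
        · rw [if_neg hT]
          have := hS2 z y hy hT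
          linarith
      have h6 : ∑ y ∈ rp z,
          (base z + g * (1 - if (∀ i l, Triv u (R z y i l)) then (1 : ℝ) else 0)) =
          (rp z).card * base z + g * ((rp z).card -
            ((rp z).filter fun y => ∀ i l, Triv u (R z y i l)).card) := by
        rw [Finset.sum_add_distrib, ← Finset.mul_sum, Finset.sum_sub_distrib,
          Finset.sum_boole]
        simp
      rw [h6] at h5
      have h7 : ((rp z).card : ℝ) / 2 ≤ (rp z).card -
            ((rp z).filter fun y => ∀ i l, Triv u (R z y i l)).card := by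
        have h8 : (((rp z).filter fun y => ∀ i l, Triv u (R z y i l)).card : ℝ) ≤ M / 2 := h3
        linarith
      nlinarith [mul_le_mul_of_nonneg_left h7 hg0]
    · have h1 : 1 ≤ bad1 z + ∑ i, bad2 (z i) := by
        by_cases h : bad1 z = 0
        · have h2 : ∃ i, bad2 (z i) ≠ 0 := by
            by_contra hcon
            push Not at hcon
            exact hgood ⟨h, hcon⟩
          obtain ⟨i, hi⟩ := h2
          have h3 : bad2 (z i) = 1 := by
            simp only [hbad2] at hi ⊢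
            split_ifs at hi ⊢
            · rfl
            · exact absurd rfl hi
          have h4 := Finset.single_le_sum (f := fun i => bad2 (z i)) (fun i _ => hb2 _)
            (Finset.mem_univ i)
          beta_reduce at h4
          rw [h3] at h4
          linarith
        · have h3 : bad1 z = 1 := by
            simp only [hbad1] at h ⊢
            split_ifs at h ⊢
            · rfl
            · exact absurd rfl h
          linarith
      have h2 : base z * (rp z).card ≤ ∑ y ∈ rp z, S z y := by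
        calc base z * (rp z).card = ∑ y ∈ rp z, base z := by simp [mul_comm]
          _ ≤ _ := Finset.sum_le_sum fun y hy => hS1 z y hy
      have h3 : (g / 2) * (1 - bad1 z - ∑ i, bad2 (z i)) ≤ 0 := by
        apply mul_nonpos_of_nonneg_of_nonpos (by linarith)
        linarith
      nlinarith [hrp0 z, mul_nonneg (neg_nonneg.2 h3) (hrp0 z).le]
  -- total
  have hsum1 : ∑ z, P z * base z = k * E.pot := by
    have h1 : ∀ z, P z * base z = ∑ i, P z * ∑ l, Real.sqrt (wt (E.piece (z i) l)) := by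
      intro z
      show P z * (∑ i, ∑ l, Real.sqrt (wt (E.piece (z i) l))) = _
      rw [Finset.mul_sum]
    simp only [h1]
    rw [Finset.sum_comm]
    have h2 : ∀ i : Fin k, ∑ z : Fin k → E.Ω, P z * ∑ l, Real.sqrt (wt (E.piece (z i) l)) =
        E.pot := by
      intro i
      exact P_marg hA E k i (fun ω => ∑ l, Real.sqrt (wt (E.piece ω l)))
    rw [Finset.sum_congr rfl fun i _ => h2 i]
    simp
  have hsum2 : ∑ z, P z * bad1 z ≤ p := by
    have h1 := P_root hA E k (fun x => if ((rep A x).card : ℝ) < M then (1 : ℝ) else 0)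
    have h2 : ∑ z, P z * bad1 z = ∑ z : Fin k → E.Ω, (∏ i, E.w (z i)) *
        (fun x => if ((rep A x).card : ℝ) < M then (1 : ℝ) else 0) (fun i => E.root (z i)) := rfl
    rw [h2, h1, div_le_iff₀ hAc, Finset.sum_boole]
    exact hrare
  have hsum3 : ∀ i : Fin k, ∑ z, P z * bad2 (z i) ≤ p := by
    intro i
    rw [P_marg hA E k i bad2]
    refine le_trans (le_of_eq ?_) hp
    unfold Expt.many
    apply Finset.sum_congr rfl
    intro ω _
    simp only [hbad2]
  have hfin : ∑ z, P z * (base z + (g / 2) * (1 - bad1 z - ∑ i, bad2 (z i))) ≤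
      ∑ z, P z * ((∑ y ∈ rp z, S z y) / (rp z).card) :=
    Finset.sum_le_sum fun z _ => mul_le_mul_of_nonneg_left (hmean z) (hP0 z)
  have hexp : ∑ z, P z * (base z + (g / 2) * (1 - bad1 z - ∑ i, bad2 (z i))) =
      k * E.pot + (g / 2) * (1 - ∑ z, P z * bad1 z - ∑ i, ∑ z, P z * bad2 (z i)) := by
    have h1 : ∀ z, P z * (base z + (g / 2) * (1 - bad1 z - ∑ i, bad2 (z i))) =
        P z * base z + (g / 2) * (P z - P z * bad1 z - ∑ i, P z * bad2 (z i)) := by
      intro z
      rw [← Finset.mul_sum]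
      ring
    simp only [h1]
    rw [Finset.sum_add_distrib, hsum1, ← Finset.mul_sum, Finset.sum_sub_distrib,
      Finset.sum_sub_distrib, P_sum hA E k, Finset.sum_comm (γ := Fin k)]
  rw [hexp] at hfin
  have hbad : ∑ i : Fin k, ∑ z, P z * bad2 (z i) ≤ k * p := by
    calc ∑ i : Fin k, ∑ z, P z * bad2 (z i) ≤ ∑ i : Fin k, p := Finset.sum_le_sum fun i _ => hsum3 i
      _ = k * p := by simp
  rw [le_div_iff₀ hk']
  refine le_trans ?_ hfin
  have h9 : (E.pot + (1 - (k + 1) * p) / (2 * k) * g) * k =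
      k * E.pot + (g / 2) * (1 - p - k * p) := by
    field_simp
    ring
  rw [h9]
  have h10 : (g / 2) * (1 - p - k * p) ≤
      (g / 2) * (1 - ∑ z, P z * bad1 z - ∑ i, ∑ z, P z * bad2 (z i)) := by
    apply mul_le_mul_of_nonneg_left _ (by linarith)
    linarith
  linarith

end Pool.Agent.TH606.DC2350
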