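import Pool.Agent.TH332.DW.Facts
import Pool.Agent.TH332.DW.Grad

set_option autoImplicit false

/-! Job DW-C, part 1: the discs inside `Om`. -/

namespace Pool.TH332.DW.H606

open Metric Set Filter Topology MeasureTheory Pool.TH332.DW

lemma e_nonneg (x : ℝ) : 0 ≤ expNegInvGlue x := expNegInvGlue.nonneg x

lemma e_mono {x y : ℝ} (h : x ≤ y) : expNegInvGlue x ≤ expNegInvGlue y := by
  by_cases hx : x ≤ 0
  · rw [expNegInvGlue.zero_of_nonpos hx]; exact e_nonneg y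
  · push Not at hx
    have hy : 0 < y := hx.trans_le h
    unfold expNegInvGlue
    rw [if_neg (not_le.2 hx), if_neg (not_le.2 hy)]
    apply Real.exp_le_exp.2
    have := inv_anti₀ hx h
    linarith

lemma e_le_one (x : ℝ) : expNegInvGlue x ≤ 1 := by
  unfold expNegInvGlue
  split_ifs with h
  · norm_num
  · push Not at h
    apply Real.exp_le_one_iff.2
    have : 0 < x⁻¹ := inv_pos.2 h
    linarith

lemma e_cont : Continuous expNegInvGlue := (expNegInvGlue.contDiff (n := 0)).continuous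

lemma gg_nonneg' {q : ℝ} (hq : 0 ≤ q) : 0 ≤ gg q :=
  intervalIntegral.integral_nonneg hq (fun x _ => e_nonneg x)

lemma gg_le' {q : ℝ} (hq : 0 ≤ q) : gg q ≤ q * expNegInvGlue q := by
  have h : gg q ≤ ∫ _s in (0:ℝ)..q, expNegInvGlue q :=
    intervalIntegral.integral_mono_on hq (e_cont.intervalIntegrable _ _)
      intervalIntegrable_const (fun x hx => e_mono hx.2)
  simpa using h

lemma gg_le_self {q : ℝ} (hq : 0 ≤ q) : gg q ≤ q := by
  have h1 := gg_le' hq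
  have h2 := e_le_one q
  nlinarith

/-- sufficient condition for being in `Om` -/
lemma mem_Om_of {z : ℂ × ℂ} (hx : |z.1.re| ≤ 1)
    (h : up z ^ 2 + gg (z.1.im ^ 2 + ‖z.2‖ ^ 2) < 2 * z.2.re - ‖z.2‖ ^ 2) : z ∈ Om := by
  have hxp : xp z = 0 := by
    unfold xp
    exact max_eq_right (by linarith)
  change rho z < 0
  unfold rho
  rw [hxp]
  nlinarith

lemma norm_sq (v : ℂ) : ‖v‖ ^ 2 = v.re ^ 2 + v.im ^ 2 := by
  rw [← Complex.normSq_eq_norm_sq, Complex.normSq_apply]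
  ring

/-- necessary condition -/
lemma norm_lt_of_mem {z : ℂ × ℂ} (hz : z ∈ Om) : ‖z.2 - 1‖ < 1 := by
  have h1 : rho z < 0 := hz
  have h2 : ‖z.2‖ ^ 2 < 2 * z.2.re := by
    unfold rho at h1
    have h3 := gg_nonneg' (q := z.1.im ^ 2 + ‖z.2‖ ^ 2) (by positivity)
    nlinarith [sq_nonneg (up z), sq_nonneg (xp z)]
  have h3 : ‖z.2 - 1‖ ^ 2 < 1 := by
    rw [norm_sq] at h2 ⊢
    simp only [Complex.sub_re, Complex.one_re, Complex.sub_im, Complex.one_im]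
    nlinarith
  have h4 : 0 ≤ ‖z.2 - 1‖ := norm_nonneg _
  nlinarith

lemma re_pos_of {n z : ℂ} (hn : ‖n‖ = 1) (h : ‖z - 1‖ < 1) :
    0 < (1 + (starRingEnd ℂ) n * (z - 1)).re := by
  have h1 : |((starRingEnd ℂ) n * (z - 1)).re| ≤ ‖(starRingEnd ℂ) n * (z - 1)‖ :=
    Complex.abs_re_le_norm _
  rw [norm_mul, Complex.norm_conj, hn, one_mul] at h1
  have h2 := (abs_le.1 h1).1
  simp only [Complex.add_re, Complex.one_re]
  linarith

/-- the parameters of the discs -/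
structure Par (n : ℂ) (τ ε : ℝ) : Prop where
  hn : ‖n‖ = 1
  hτ : ‖1 - n‖ = τ
  pos : 0 < τ
  le : τ ≤ 1 / 20
  hε : ε = Real.exp (-(1 / (3 * τ ^ 2)))

variable {n : ℂ} {τ ε : ℝ}

lemma Par.eps_pos (P : Par n τ ε) : 0 < ε := by rw [P.hε]; exact Real.exp_pos _

lemma Par.big (P : Par n τ ε) : 133 ≤ 1 / (3 * τ ^ 2) := by
  have h := P.pos
  have h1 := P.le
  rw [le_div_iff₀ (by positivity)]
  nlinarith

lemma Par.eps_le (P : Par n τ ε) : ε ≤ 1 / 134 := by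
  rw [P.hε, Real.exp_neg, ← one_div]
  apply one_div_le_one_div_of_le (by norm_num)
  have := Real.add_one_le_exp (1 / (3 * τ ^ 2))
  linarith [P.big]

lemma Par.eps_le_sq (P : Par n τ ε) : ε ≤ 3 * τ ^ 2 := by
  have hp := P.pos
  rw [P.hε, Real.exp_neg]
  have h1 := Real.add_one_le_exp (1 / (3 * τ ^ 2))
  have h2 : 0 < 1 / (3 * τ ^ 2) := by positivity
  have h3 : (Real.exp (1 / (3 * τ ^ 2)))⁻¹ ≤ (1 / (3 * τ ^ 2))⁻¹ :=
    inv_anti₀ h2 (by linarith)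
  rw [one_div, inv_inv] at h3
  rw [one_div]
  exact h3

/-- the ball of parameters -/
def BB (ε : ℝ) : Set ℂ := ball (((1 / 16 + ε : ℝ) : ℂ)) (1 / 16)

lemma mem_BB {v : ℂ} : v ∈ BB ε ↔ (v.re - (1 / 16 + ε)) ^ 2 + v.im ^ 2 < (1 / 16) ^ 2 := by
  unfold BB
  rw [mem_ball, dist_eq_norm]
  have h1 : ‖v - ((1 / 16 + ε : ℝ) : ℂ)‖ ^ 2 = (v.re - (1 / 16 + ε)) ^ 2 + v.im ^ 2 := by
    rw [norm_sq]
    simp only [Complex.sub_re, Complex.ofReal_re, Complex.sub_im, Complex.ofReal_im, sub_zero]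
  rw [← h1]
  constructor
  · intro h
    have := norm_nonneg (v - ((1 / 16 + ε : ℝ) : ℂ))
    nlinarith
  · intro h
    by_contra h2
    push Not at h2
    have := norm_nonneg (v - ((1 / 16 + ε : ℝ) : ℂ))
    nlinarith

lemma re_gt {v : ℂ} (hv : v ∈ BB ε) : ε < v.re := by
  rw [mem_BB] at hv
  have h1 : (v.re - (1 / 16 + ε)) ^ 2 < (1 / 16) ^ 2 := by nlinarith [sq_nonneg v.im]
  have h2 := abs_lt_of_sq_lt_sq h1 (by norm_num)
  have h3 := (abs_lt.1 h2).1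
  linarith

lemma step1 (P : Par n τ ε) {v : ℂ} (hv : v ∈ BB ε) :
    12 * ‖v‖ ^ 2 + ε < 2 * v.re - ‖v‖ ^ 2 := by
  have h1 := re_gt hv
  have h2 := P.eps_pos
  have h3 := P.eps_le
  rw [mem_BB] at hv
  rw [norm_sq]
  have h4 : 0 ≤ (2 - 26 * (1 / 16 + ε)) * v.re := by
    apply mul_nonneg
    · linarith
    · linarith
  nlinarith

lemma slice (hn : ‖n‖ = 1) (v : ℂ) :
    2 * (1 - n + n * v).re - ‖1 - n + n * v‖ ^ 2 = 2 * v.re - ‖v‖ ^ 2 := by
  have h1 : ‖1 - n + n * v - 1‖ ^ 2 = ‖v - 1‖ ^ 2 := by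
    have : 1 - n + n * v - 1 = n * (v - 1) := by ring
    rw [this, norm_mul, hn, one_mul]
  rw [norm_sq, norm_sq] at h1
  rw [norm_sq, norm_sq]
  simp only [Complex.sub_re, Complex.one_re, Complex.sub_im, Complex.one_im] at h1
  nlinarith

lemma up_le (z : ℂ × ℂ) : up z ≤ |z.1.im| := by
  unfold up
  apply max_le
  · have := sq_nonneg ‖z.2‖
    linarith
  · exact abs_nonneg _

lemma up_nonneg (z : ℂ × ℂ) : 0 ≤ up z := le_max_right _ _

lemma mem_disc (P : Par n τ ε) {v : ℂ} (hv : v ∈ BB ε) {s : ℂ} (hs1 : |s.re| ≤ 1)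
    (hs2 : |s.im| ≤ τ ^ 2 / 64) : ((s, 1 - n + n * v) : ℂ × ℂ) ∈ Om := by
  have hp := P.pos
  have hle := P.le
  have he := P.eps_pos
  have hsl := slice P.hn v
  have hst := step1 P hv
  have hsim : s.im ^ 2 ≤ (τ ^ 2 / 64) ^ 2 := by
    rw [← sq_abs]
    exact pow_le_pow_left₀ (abs_nonneg _) hs2 2
  have hup : ‖1 - n + n * v‖ ≤ τ + ‖v‖ := by
    refine (norm_add_le _ _).trans ?_
    rw [norm_mul, P.hn, one_mul, P.hτ]
  have hvn := norm_nonneg v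
  apply mem_Om_of hs1
  change up (s, 1 - n + n * v) ^ 2 + gg (s.im ^ 2 + ‖1 - n + n * v‖ ^ 2)
    < 2 * (1 - n + n * v).re - ‖1 - n + n * v‖ ^ 2
  rw [hsl]
  have hgn : 0 ≤ s.im ^ 2 + ‖1 - n + n * v‖ ^ 2 := by positivity
  by_cases hc : ‖v‖ ≤ τ / 2
  · have hlow : τ / 2 ≤ ‖1 - n + n * v‖ := by
      have h1 : ‖1 - n‖ ≤ ‖1 - n + n * v‖ + ‖n * v‖ := by
        have := norm_sub_le (1 - n + n * v) (n * v)
        rwa [add_sub_cancel_right] at this
      rw [P.hτ, norm_mul, P.hn, one_mul] at h1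
      linarith
    have hup0 : up (s, 1 - n + n * v) = 0 := by
      unfold up
      apply max_eq_right
      change |s.im| - ‖1 - n + n * v‖ ^ 2 / 16 ≤ 0
      nlinarith
    have hq : s.im ^ 2 + ‖1 - n + n * v‖ ^ 2 ≤ 3 * τ ^ 2 := by
      have h1 : ‖1 - n + n * v‖ ^ 2 ≤ (3 * τ / 2) ^ 2 :=
        pow_le_pow_left₀ (norm_nonneg _) (by linarith) 2
      have h2 : (τ ^ 2 / 64) ^ 2 ≤ τ ^ 2 / 4 := by
        have : τ ^ 2 ≤ 1 := by nlinarith
        nlinarith [sq_nonneg τ]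
      nlinarith
    have hg : gg (s.im ^ 2 + ‖1 - n + n * v‖ ^ 2) ≤ 3 * τ ^ 2 * ε := by
      refine (gg_le' hgn).trans ?_
      have h1 : expNegInvGlue (3 * τ ^ 2) = ε := by
        unfold expNegInvGlue
        rw [if_neg (not_le.2 (by positivity)), P.hε, one_div]
      rw [← h1]
      exact mul_le_mul hq (e_mono hq) (e_nonneg _) (by positivity)
    rw [hup0]
    have h3 : 3 * τ ^ 2 * ε ≤ ε := by
      have : 3 * τ ^ 2 ≤ 1 := by nlinarith
      nlinarith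
    nlinarith [sq_nonneg ‖v‖]
  · push Not at hc
    have h1 : ‖1 - n + n * v‖ ≤ 3 * ‖v‖ := by linarith
    have h2 : ‖1 - n + n * v‖ ^ 2 ≤ (3 * ‖v‖) ^ 2 := pow_le_pow_left₀ (norm_nonneg _) h1 2
    have h3 : |s.im| ≤ ‖v‖ := by nlinarith
    have h4 : s.im ^ 2 ≤ ‖v‖ ^ 2 := by
      rw [← sq_abs]
      exact pow_le_pow_left₀ (abs_nonneg _) h3 2
    have h5 : up (s, 1 - n + n * v) ^ 2 ≤ ‖v‖ ^ 2 := by
      refine pow_le_pow_left₀ (up_nonneg _) ((up_le _).trans h3) 2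
    have h6 := gg_le_self hgn
    nlinarith

/-- the constant `log (1 + τ / (2 ε))` -/
noncomputable def Lam (τ ε : ℝ) : ℝ := Real.log (1 + τ / (2 * ε))

lemma Par.lam (P : Par n τ ε) : 1 / (6 * τ ^ 2) ≤ Lam τ ε := by
  have hp := P.pos
  have hle := P.le
  have he := P.eps_pos
  have h1 : Real.log (τ / (2 * ε)) ≤ Lam τ ε := by
    unfold Lam
    apply Real.log_le_log (by positivity)
    linarith
  have h2 : Real.log (τ / (2 * ε)) = Real.log (τ / 2) + 1 / (3 * τ ^ 2) := by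
    have : τ / (2 * ε) = (τ / 2) / ε := by field_simp
    rw [this, Real.log_div (by positivity) he.ne', P.hε, Real.log_exp]
    ring
  have h3 : Real.log (2 / τ) ≤ 2 / τ - 1 := Real.log_le_sub_one_of_pos (by positivity)
  have h4 : Real.log (τ / 2) = -Real.log (2 / τ) := by
    rw [← Real.log_inv, inv_div]
  have h5 : 2 / τ ≤ 1 / (6 * τ ^ 2) := by
    rw [div_le_div_iff₀ hp (by positivity)]
    nlinarith
  have h6 : 1 / (3 * τ ^ 2) = 1 / (6 * τ ^ 2) + 1 / (6 * τ ^ 2) := by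
    field_simp
    norm_num
  linarith

lemma Par.lam_pos (P : Par n τ ε) : 0 < Lam τ ε := by
  have hp := P.pos
  have : 0 < 1 / (6 * τ ^ 2) := by positivity
  linarith [P.lam]

/-- the function `f` -/
noncomputable def ff (τ ε : ℝ) (v : ℂ) : ℂ :=
  ((1 / 1000 / Lam τ ε : ℝ) : ℂ) * Complex.log (1 + τ / v)

lemma arg_re {v : ℂ} (hτ : 0 < τ) (hv : 0 < v.re) : 1 < (1 + (τ : ℂ) / v).re := by
  have h1 : ((τ : ℂ) / v).re = τ * v.re / Complex.normSq v := by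
    rw [Complex.div_re]
    simp
  simp only [Complex.add_re, Complex.one_re]
  rw [h1]
  have h2 : 0 < Complex.normSq v := by
    apply Complex.normSq_pos.2
    rintro rfl
    simp at hv
  have : 0 < τ * v.re / Complex.normSq v := by positivity
  linarith

lemma ff_im (P : Par n τ ε) {v : ℂ} (hv : 0 < v.re) : |(ff τ ε v).im| ≤ τ ^ 2 / 64 := by
  have hp := P.pos
  have h0 := P.lam_pos
  unfold ff
  rw [Complex.im_ofReal_mul, Complex.log_im, abs_mul, abs_of_pos (by positivity)]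
  have h1 : |(1 + (τ : ℂ) / v).arg| ≤ Real.pi / 2 := by
    rw [Complex.abs_arg_le_pi_div_two_iff]
    linarith [arg_re hp hv]
  have h2 : 1 / 1000 / Lam τ ε ≤ 6 * τ ^ 2 / 1000 := by
    rw [div_le_iff₀ h0]
    have := P.lam
    rw [div_le_iff₀ (by positivity)] at this
    nlinarith
  calc 1 / 1000 / Lam τ ε * |(1 + (τ : ℂ) / v).arg| ≤ (6 * τ ^ 2 / 1000) * (Real.pi / 2) :=
        mul_le_mul h2 h1 (abs_nonneg _) (by positivity)
    _ ≤ τ ^ 2 / 64 := by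
        have := Real.pi_lt_four
        nlinarith [sq_nonneg τ, Real.pi_lt_d2]

lemma norm_le_add {v : ℂ} (hτ : 0 < τ) : ‖1 + (τ : ℂ) / v‖ ≤ 1 + τ / ‖v‖ := by
  refine (norm_add_le _ _).trans ?_
  rw [norm_one, norm_div, Complex.norm_real, Real.norm_of_nonneg hτ.le]

lemma one_le_norm {v : ℂ} (hτ : 0 < τ) (hv : 0 < v.re) : 1 ≤ ‖1 + (τ : ℂ) / v‖ :=
  (arg_re hτ hv).le.trans (Complex.re_le_norm _)

lemma ff_re_nonneg (P : Par n τ ε) {v : ℂ} (hv : 0 < v.re) : 0 ≤ (ff τ ε v).re := by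
  have h0 := P.lam_pos
  unfold ff
  rw [Complex.re_ofReal_mul, Complex.log_re]
  have := Real.log_nonneg (one_le_norm P.pos hv)
  positivity

lemma ff_re (P : Par n τ ε) {v : ℂ} (hv : ε < v.re) : |(ff τ ε v).re| ≤ 1 := by
  have hp := P.pos
  have he := P.eps_pos
  have h0 := P.lam_pos
  have hv0 : 0 < v.re := he.trans hv
  rw [abs_of_nonneg (ff_re_nonneg P hv0)]
  unfold ff
  rw [Complex.re_ofReal_mul, Complex.log_re]
  have h1 : ‖1 + (τ : ℂ) / v‖ ≤ (1 + τ / (2 * ε)) ^ 2 := by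
    refine (norm_le_add hp).trans ?_
    have h2 : ε ≤ ‖v‖ := hv.le.trans (Complex.re_le_norm v)
    have h3 : τ / ‖v‖ ≤ τ / ε := div_le_div_of_nonneg_left hp.le he h2
    have h4 : τ / ε = 2 * (τ / (2 * ε)) := by field_simp
    nlinarith [sq_nonneg (τ / (2 * ε))]
  have h2 : Real.log ‖1 + (τ : ℂ) / v‖ ≤ 2 * Lam τ ε := by
    have h3 := Real.log_le_log (lt_of_lt_of_le one_pos (one_le_norm hp hv0)) h1
    rw [Real.log_pow] at h3
    exact_mod_cast h3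
  calc 1 / 1000 / Lam τ ε * Real.log ‖1 + (τ : ℂ) / v‖ ≤ 1 / 1000 / Lam τ ε * (2 * Lam τ ε) :=
        mul_le_mul_of_nonneg_left h2 (by positivity)
    _ ≤ 1 := by
        rw [div_mul_eq_mul_div, div_le_one h0]
        linarith

lemma ff_end (P : Par n τ ε) : ff τ ε ((2 * ε : ℝ) : ℂ) = ((1 / 1000 : ℝ) : ℂ) := by
  have hp := P.pos
  have he := P.eps_pos
  have h0 := P.lam_pos
  unfold ff
  have h1 : (1 : ℂ) + (τ : ℂ) / ((2 * ε : ℝ) : ℂ) = ((1 + τ / (2 * ε) : ℝ) : ℂ) := by push_cast; ring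
  rw [h1, ← Complex.ofReal_log (by positivity), ← Complex.ofReal_mul]
  congr 1
  change 1 / 1000 / Lam τ ε * Lam τ ε = _
  field_simp

lemma ff_diff (P : Par n τ ε) : DifferentiableOn ℂ (ff τ ε) (BB ε) := by
  intro v hv
  have hp := P.pos
  have hv0 : 0 < v.re := P.eps_pos.trans (re_gt hv)
  have hv1 : v ≠ 0 := by rintro rfl; simp at hv0
  have hs : 1 + (τ : ℂ) / v ∈ Complex.slitPlane := by
    left
    linarith [arg_re hp hv0]
  have hd : DifferentiableAt ℂ (fun v : ℂ => 1 + (τ : ℂ) / v) v :=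
    (differentiableAt_const _).add ((differentiableAt_const _).div differentiableAt_id hv1)
  exact ((hd.clog hs).const_mul _).differentiableWithinAt

end Pool.TH332.DW.H606

/-! Job DW-C, part 2: the estimates of the Kobayashi distance. -/

namespace Pool.TH332.DW.H606

open Metric Set Filter Topology MeasureTheory Pool.TH332.DW

variable {n : ℂ} {τ ε : ℝ}

/-- the identity `|1 - conj a b|² - |a - b|² = (1 - |a|²)(1 - |b|²)` -/
lemma ident (a b : ℂ) : ‖1 - (starRingEnd ℂ) a * b‖ ^ 2 - ‖a - b‖ ^ 2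
    = (1 - ‖a‖ ^ 2) * (1 - ‖b‖ ^ 2) := by
  simp only [norm_sq, Complex.sub_re, Complex.sub_im, Complex.one_re, Complex.one_im,
    Complex.mul_re, Complex.mul_im, Complex.conj_re, Complex.conj_im]
  ring

lemma pdist_le {a b : ℂ} (ha : ‖a‖ < 1) (hb : ‖b‖ < 1) {K : ℝ}
    (hK : 4 * ‖1 - (starRingEnd ℂ) a * b‖ ^ 2 ≤ K * ((1 - ‖a‖ ^ 2) * (1 - ‖b‖ ^ 2))) :
    pdist a b ≤ 1 / 2 * Real.log K := by
  set N : ℝ := ‖1 - (starRingEnd ℂ) a * b‖ with hN
  set M : ℝ := ‖a - b‖ with hM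
  have hid := ident a b
  rw [← hN, ← hM] at hid
  have ha2 : 0 < 1 - ‖a‖ ^ 2 := by nlinarith [norm_nonneg a]
  have hb2 : 0 < 1 - ‖b‖ ^ 2 := by nlinarith [norm_nonneg b]
  have hP : 0 < (1 - ‖a‖ ^ 2) * (1 - ‖b‖ ^ 2) := mul_pos ha2 hb2
  have hN0 : 0 ≤ N := norm_nonneg _
  have hM0 : 0 ≤ M := norm_nonneg _
  have hMN : M < N := by nlinarith
  have hNp : 0 < N := lt_of_le_of_lt hM0 hMN
  unfold pdist
  rw [norm_div, ← hN, ← hM]
  have h1 : (1 + M / N) / (1 - M / N) = (N + M) / (N - M) := by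
    field_simp
  rw [h1]
  have hNM : 0 < N - M := by linarith
  have h2 : (N + M) / (N - M) ≤ K := by
    rw [div_le_iff₀ hNM]
    have h3 : (N + M) * (N + M) ≤ K * (N - M) * (N + M) := by
      have : K * (N - M) * (N + M) = K * (N ^ 2 - M ^ 2) := by ring
      rw [this, hid]
      nlinarith
    exact le_of_mul_le_mul_right h3 (by linarith)
  have h3 : 0 < (N + M) / (N - M) := by positivity
  have := Real.log_le_log h3 h2
  linarith

lemma lower (hK : KobFacts Om) (P : Par n τ ε) {u : ℂ × ℂ} (hu : u ∈ Om)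
    (hu2 : u.2 = 1 - n + n * ((2 * ε : ℝ) : ℂ)) {z₀ : ℂ × ℂ} (hz : z₀ ∈ Om)
    (hz2 : z₀.2 = 1 / 2) : 1 / 2 * Real.log (1 / (4 * ε)) ≤ kob Om z₀ u := by
  have he := P.eps_pos
  have hnn : (starRingEnd ℂ) n * n = 1 := by
    rw [mul_comm, Complex.mul_conj, Complex.normSq_eq_norm_sq, P.hn]
    norm_num
  have h := hK.half (fun z : ℂ × ℂ => 1 + (starRingEnd ℂ) n * (z.2 - 1))
    ((((differentiable_snd.sub_const 1).const_mul _).const_add 1).differentiableOn)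
    (fun z hz => re_pos_of P.hn (norm_lt_of_mem hz)) u hu z₀ hz
  try beta_reduce at h
  have e1 : 1 + (starRingEnd ℂ) n * (u.2 - 1) = ((2 * ε : ℝ) : ℂ) := by
    rw [hu2]
    linear_combination (-1 + ((2 * ε : ℝ) : ℂ)) * hnn
  rw [e1, Complex.ofReal_re, hz2, hK.comm] at h
  set k := kob Om z₀ u with hk
  have h2 : (1 : ℝ) / 2 ≤ ‖1 + (starRingEnd ℂ) n * (1 / 2 - 1)‖ := by
    have h3 : ‖(starRingEnd ℂ) n * (1 / 2 - 1 : ℂ)‖ = 1 / 2 := by
      rw [norm_mul, Complex.norm_conj, P.hn]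
      norm_num
    have h4 : ‖(1 : ℂ)‖ ≤ ‖1 + (starRingEnd ℂ) n * (1 / 2 - 1)‖ +
        ‖(starRingEnd ℂ) n * (1 / 2 - 1 : ℂ)‖ := by
      have := norm_sub_le (1 + (starRingEnd ℂ) n * (1 / 2 - 1)) ((starRingEnd ℂ) n * (1 / 2 - 1 : ℂ))
      rwa [add_sub_cancel_right] at this
    rw [norm_one] at h4
    linarith
  have h5 : ‖1 + (starRingEnd ℂ) n * (1 / 2 - 1)‖ ≤
      ‖1 + (starRingEnd ℂ) n * (1 / 2 - 1) - ((2 * ε : ℝ) : ℂ)‖ + 2 * ε := by
    have := norm_add_le (1 + (starRingEnd ℂ) n * (1 / 2 - 1) - ((2 * ε : ℝ) : ℂ)) ((2 * ε : ℝ) : ℂ)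
    rw [sub_add_cancel, Complex.norm_real, Real.norm_of_nonneg (by positivity)] at this
    exact this
  have h6 : 1 / (4 * ε) ≤ Real.exp (2 * k) := by
    rw [div_le_iff₀ (by positivity)]
    linarith
  have h7 := Real.log_le_log (by positivity) h6
  rw [Real.log_exp] at h7
  linarith

lemma norm_lt_one_of_BB {v : ℂ} (hv : v ∈ BB ε) :
    ‖(v - ((1 / 16 + ε : ℝ) : ℂ)) / ((1 / 16 : ℝ) : ℂ)‖ < 1 := by
  unfold BB at hv
  rw [mem_ball, dist_eq_norm] at hv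
  rw [norm_div, Complex.norm_real, Real.norm_of_nonneg (by norm_num : (0 : ℝ) ≤ 1 / 16),
    div_lt_one (by norm_num)]
  exact hv

lemma end_mem (P : Par n τ ε) : ((2 * ε : ℝ) : ℂ) ∈ BB ε := by
  have he := P.eps_pos
  have hl := P.eps_le
  rw [mem_BB, Complex.ofReal_re, Complex.ofReal_im]
  nlinarith

/-- upper estimate along a disc -/
lemma upper (hK : KobFacts Om) (P : Par n τ ε) {s : ℂ → ℂ} (hs : DifferentiableOn ℂ s (BB ε))
    (hs1 : ∀ v ∈ BB ε, |(s v).re| ≤ 1) (hs2 : ∀ v ∈ BB ε, |(s v).im| ≤ τ ^ 2 / 64)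
    {v : ℂ} (hv : v ∈ BB ε) {r : ℝ} (hr : 0 < r)
    (h1 : ‖1 - (starRingEnd ℂ) ((v - ((1 / 16 + ε : ℝ) : ℂ)) / ((1 / 16 : ℝ) : ℂ)) *
      ((((2 * ε : ℝ) : ℂ) - ((1 / 16 + ε : ℝ) : ℂ)) / ((1 / 16 : ℝ) : ℂ))‖ ≤ 20 * r)
    (h2 : 10 * r ≤ 1 - ‖(v - ((1 / 16 + ε : ℝ) : ℂ)) / ((1 / 16 : ℝ) : ℂ)‖ ^ 2) :
    kob Om (s v, 1 - n + n * v)
      (s ((2 * ε : ℝ) : ℂ), 1 - n + n * ((2 * ε : ℝ) : ℂ)) ≤ 1 / 2 * Real.log (10 * r / ε) := by
  have he := P.eps_pos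
  have hl := P.eps_le
  have hd : DifferentiableOn ℂ (fun v : ℂ => ((s v, 1 - n + n * v) : ℂ × ℂ)) (BB ε) :=
    hs.prodMk (((differentiable_id.const_mul n).const_add (1 - n)).differentiableOn)
  have hm : MapsTo (fun v : ℂ => ((s v, 1 - n + n * v) : ℂ × ℂ)) (BB ε) Om :=
    fun w hw => mem_disc P hw (hs1 w hw) (hs2 w hw)
  have h3 := hK.disc (fun v : ℂ => ((s v, 1 - n + n * v) : ℂ × ℂ)) ((1 / 16 + ε : ℝ) : ℂ) (1 / 16)
    (by norm_num) hd hm v hv ((2 * ε : ℝ) : ℂ) (end_mem P)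
  refine h3.trans ?_
  apply pdist_le (norm_lt_one_of_BB hv) (norm_lt_one_of_BB (end_mem P))
  have h4 : 16 * ε ≤ 1 - ‖(((2 * ε : ℝ) : ℂ) - ((1 / 16 + ε : ℝ) : ℂ)) / ((1 / 16 : ℝ) : ℂ)‖ ^ 2 := by
    rw [← Complex.ofReal_sub, ← Complex.ofReal_div, Complex.norm_real, Real.norm_eq_abs, sq_abs]
    nlinarith
  set N := ‖1 - (starRingEnd ℂ) ((v - ((1 / 16 + ε : ℝ) : ℂ)) / ((1 / 16 : ℝ) : ℂ)) *
      ((((2 * ε : ℝ) : ℂ) - ((1 / 16 + ε : ℝ) : ℂ)) / ((1 / 16 : ℝ) : ℂ))‖ with hN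
  have hN0 : 0 ≤ N := norm_nonneg _
  have h5 : N ^ 2 ≤ (20 * r) ^ 2 := pow_le_pow_left₀ hN0 h1 2
  have h6 : (10 * r) * (16 * ε) ≤
      (1 - ‖(v - ((1 / 16 + ε : ℝ) : ℂ)) / ((1 / 16 : ℝ) : ℂ)‖ ^ 2) *
      (1 - ‖(((2 * ε : ℝ) : ℂ) - ((1 / 16 + ε : ℝ) : ℂ)) / ((1 / 16 : ℝ) : ℂ)‖ ^ 2) :=
    mul_le_mul h2 h4 (by positivity) (by linarith)
  have h7 : 10 * r / ε * ((10 * r) * (16 * ε)) = 4 * (20 * r) ^ 2 := by
    field_simp
    norm_num
  calc 4 * N ^ 2 ≤ 4 * (20 * r) ^ 2 := by linarith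
    _ = 10 * r / ε * ((10 * r) * (16 * ε)) := h7.symm
    _ ≤ _ := mul_le_mul_of_nonneg_left h6 (by positivity)

end Pool.TH332.DW.H606

/-! Job DW-C, part 3: the sequence and the conclusion. -/

namespace Pool.TH332.DW.H606

open Metric Set Filter Topology MeasureTheory Pool.TH332.DW

/-- the angles -/
noncomputable def th (k : ℕ) : ℝ := 1 / (20 * ((k : ℝ) + 1))
/-- the normals -/
noncomputable def nn (k : ℕ) : ℂ := Complex.exp (Complex.I * (-(th k) : ℝ))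
noncomputable def ta (k : ℕ) : ℝ := ‖1 - nn k‖
noncomputable def ep (k : ℕ) : ℝ := Real.exp (-(1 / (3 * ta k ^ 2)))

lemma th_pos (k : ℕ) : 0 < th k := by unfold th; positivity
lemma th_le (k : ℕ) : th k ≤ 1 / 20 := by
  unfold th
  apply one_div_le_one_div_of_le (by norm_num)
  have : (0 : ℝ) ≤ k := Nat.cast_nonneg k
  linarith
lemma th_tendsto : Tendsto th atTop (𝓝 0) := by
  have h : Tendsto (fun k : ℕ => 1 / 20 * (1 / ((k : ℝ) + 1))) atTop (𝓝 (1 / 20 * 0)) :=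
    tendsto_one_div_add_atTop_nhds_zero_nat.const_mul _
  rw [mul_zero] at h
  refine h.congr fun k => ?_
  unfold th
  field_simp

lemma ta_le (k : ℕ) : ta k ≤ th k := by
  unfold ta nn
  rw [norm_sub_rev]
  refine (Real.norm_exp_I_mul_ofReal_sub_one_le).trans ?_
  rw [norm_neg, Real.norm_of_nonneg (th_pos k).le]

lemma ta_pos (k : ℕ) : 0 < ta k := by
  unfold ta
  rw [norm_pos_iff]
  intro h
  have h1 : (1 - nn k).im = 0 := by rw [h]; simp
  unfold nn at h1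
  rw [mul_comm] at h1
  rw [Complex.sub_im, Complex.one_im, Complex.exp_ofReal_mul_I_im, Real.sin_neg] at h1
  have h2 : 0 < Real.sin (th k) :=
    Real.sin_pos_of_pos_of_lt_pi (th_pos k) (by linarith [th_le k, Real.pi_gt_three])
  linarith

lemma par (k : ℕ) : Par (nn k) (ta k) (ep k) where
  hn := by
    unfold nn
    rw [mul_comm]
    exact Complex.norm_exp_ofReal_mul_I _
  hτ := rfl
  pos := ta_pos k
  le := (ta_le k).trans (th_le k)
  hε := rfl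

lemma ta_tendsto : Tendsto ta atTop (𝓝 0) :=
  squeeze_zero (fun k => (ta_pos k).le) ta_le th_tendsto

lemma ep_tendsto : Tendsto ep atTop (𝓝 0) := by
  have h : Tendsto (fun k => 3 * ta k ^ 2) atTop (𝓝 (3 * 0 ^ 2)) := (ta_tendsto.pow 2).const_mul 3
  have e : (3 : ℝ) * 0 ^ 2 = 0 := by norm_num
  rw [e] at h
  exact squeeze_zero (fun k => (par k).eps_pos.le) (fun k => (par k).eps_le_sq) h

lemma nn_tendsto : Tendsto nn atTop (𝓝 1) := by
  rw [tendsto_iff_norm_sub_tendsto_zero]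
  refine ta_tendsto.congr fun k => ?_
  unfold ta
  rw [norm_sub_rev]

/-- the sequence `u` -/
noncomputable def uu (k : ℕ) : ℂ × ℂ :=
  (((1 / 1000 : ℝ) : ℂ), 1 - nn k + nn k * ((2 * ep k : ℝ) : ℂ))

lemma uu_mem (k : ℕ) : uu k ∈ Om := by
  apply mem_disc (par k) (end_mem (par k))
  · rw [Complex.ofReal_re]; norm_num
  · rw [Complex.ofReal_im, abs_zero]
    positivity

lemma uu_tendsto : Tendsto uu atTop (𝓝 (((1 / 1000 : ℝ) : ℂ), 0)) := by
  apply Tendsto.prodMk_nhds tendsto_const_nhds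
  have h1 : Tendsto (fun k => ((2 * ep k : ℝ) : ℂ)) atTop (𝓝 (((2 * 0 : ℝ)) : ℂ)) :=
    (Complex.continuous_ofReal.tendsto _).comp (ep_tendsto.const_mul 2)
  have h2 : Tendsto (fun k => 1 - nn k + nn k * ((2 * ep k : ℝ) : ℂ)) atTop
      (𝓝 (1 - 1 + 1 * ((2 * 0 : ℝ) : ℂ))) :=
    (nn_tendsto.const_sub 1).add (nn_tendsto.mul h1)
  simpa using h2

/-- points of the slices -/
lemma real_mem {x r : ℝ} (hx : |x| ≤ 1) (hr : 0 < r) (hr1 : r < 1) :
    (((x : ℂ), (r : ℂ)) : ℂ × ℂ) ∈ Om := by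
  apply mem_Om_of
  · exact hx
  · change up ((x : ℂ), (r : ℂ)) ^ 2 + gg ((x : ℂ).im ^ 2 + ‖(r : ℂ)‖ ^ 2) <
      2 * (r : ℂ).re - ‖(r : ℂ)‖ ^ 2
    have h1 : up ((x : ℂ), (r : ℂ)) = 0 := by
      unfold up
      apply max_eq_right
      change |(x : ℂ).im| - ‖(r : ℂ)‖ ^ 2 / 16 ≤ 0
      rw [Complex.ofReal_im, abs_zero]
      have := sq_nonneg ‖(r : ℂ)‖
      linarith
    rw [h1, Complex.ofReal_im, Complex.norm_real, Real.norm_of_nonneg hr.le, Complex.ofReal_re]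
    have h2 := gg_le_self (q := 0 ^ 2 + r ^ 2) (by positivity)
    nlinarith

lemma z0_mem : ((0, 1 / 2) : ℂ × ℂ) ∈ Om := by
  have := real_mem (x := 0) (r := 1 / 2) (by simp) (by norm_num) (by norm_num)
  convert this using 2
  · simp
  · push_cast
    norm_num

lemma not_mem {x : ℝ} : (((x : ℂ), 0) : ℂ × ℂ) ∉ Om := by
  intro h
  have := norm_lt_of_mem h
  simp at this

/-- the parameter of the point `(·, r)` -/
noncomputable def vv (k : ℕ) (r : ℝ) : ℂ := 1 - (starRingEnd ℂ) (nn k) * (1 - r)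

lemma vv_eq (k : ℕ) (r : ℝ) : 1 - nn k + nn k * vv k r = r := by
  have hnn : (starRingEnd ℂ) (nn k) * nn k = 1 := by
    rw [mul_comm, Complex.mul_conj, Complex.normSq_eq_norm_sq, (par k).hn]
    norm_num
  unfold vv
  linear_combination (-(1 - (r : ℂ))) * hnn

lemma vv_tendsto (r : ℝ) : Tendsto (fun k => vv k r) atTop (𝓝 (r : ℂ)) := by
  have h1 : Tendsto (fun k => 1 - (starRingEnd ℂ) (nn k) * (1 - (r : ℂ))) atTop
      (𝓝 (1 - (starRingEnd ℂ) 1 * (1 - (r : ℂ)))) :=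
    (((Complex.continuous_conj.tendsto _).comp nn_tendsto).mul_const _).const_sub 1
  have e : 1 - (starRingEnd ℂ) 1 * (1 - (r : ℂ)) = r := by
    rw [map_one]; ring
  rwa [e] at h1

lemma ce_tendsto : Tendsto (fun k => ((1 / 16 + ep k : ℝ) : ℂ)) atTop (𝓝 ((1 / 16 : ℝ) : ℂ)) := by
  have h := ep_tendsto.const_add (1 / 16)
  rw [add_zero] at h
  exact (Complex.continuous_ofReal.tendsto _).comp h

lemma al_tendsto (r : ℝ) : Tendsto
    (fun k => (vv k r - ((1 / 16 + ep k : ℝ) : ℂ)) / ((1 / 16 : ℝ) : ℂ)) atTop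
    (𝓝 (((16 * r - 1 : ℝ)) : ℂ)) := by
  have h := ((vv_tendsto r).sub ce_tendsto).div_const ((1 / 16 : ℝ) : ℂ)
  convert h using 2
  push_cast
  ring

lemma be_tendsto : Tendsto
    (fun k => (((2 * ep k : ℝ) : ℂ) - ((1 / 16 + ep k : ℝ) : ℂ)) / ((1 / 16 : ℝ) : ℂ)) atTop
    (𝓝 (-1)) := by
  have h1 : Tendsto (fun k => ((2 * ep k : ℝ) : ℂ)) atTop (𝓝 (((2 * 0 : ℝ)) : ℂ)) :=
    (Complex.continuous_ofReal.tendsto _).comp (ep_tendsto.const_mul 2)
  have h := (h1.sub ce_tendsto).div_const ((1 / 16 : ℝ) : ℂ)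
  convert h using 2
  push_cast
  norm_num

/-- the eventual conditions of `upper` -/
lemma ev {r : ℝ} (hr : 0 < r) (hr1 : r < 1 / 80) : ∀ᶠ k in atTop, vv k r ∈ BB (ep k) ∧
    ‖1 - (starRingEnd ℂ) ((vv k r - ((1 / 16 + ep k : ℝ) : ℂ)) / ((1 / 16 : ℝ) : ℂ)) *
      ((((2 * ep k : ℝ) : ℂ) - ((1 / 16 + ep k : ℝ) : ℂ)) / ((1 / 16 : ℝ) : ℂ))‖ ≤ 20 * r ∧
    10 * r ≤ 1 - ‖(vv k r - ((1 / 16 + ep k : ℝ) : ℂ)) / ((1 / 16 : ℝ) : ℂ)‖ ^ 2 := by
  have h1 := al_tendsto r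
  have h2 := be_tendsto
  have h3 : Tendsto (fun k => ‖1 - (starRingEnd ℂ) ((vv k r - ((1 / 16 + ep k : ℝ) : ℂ)) /
      ((1 / 16 : ℝ) : ℂ)) * ((((2 * ep k : ℝ) : ℂ) - ((1 / 16 + ep k : ℝ) : ℂ)) /
      ((1 / 16 : ℝ) : ℂ))‖) atTop (𝓝 (16 * r)) := by
    have h := ((((Complex.continuous_conj.tendsto _).comp h1).mul h2).const_sub 1).norm
    have e : ‖1 - (starRingEnd ℂ) ((16 * r - 1 : ℝ) : ℂ) * (-1)‖ = 16 * r := by
      rw [Complex.conj_ofReal]
      have : (1 : ℂ) - ((16 * r - 1 : ℝ) : ℂ) * (-1) = ((16 * r : ℝ) : ℂ) := by push_cast; ring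
      rw [this, Complex.norm_real, Real.norm_of_nonneg (by positivity)]
    rw [e] at h
    exact h
  have h4 : Tendsto (fun k => 1 - ‖(vv k r - ((1 / 16 + ep k : ℝ) : ℂ)) / ((1 / 16 : ℝ) : ℂ)‖ ^ 2)
      atTop (𝓝 (1 - (16 * r - 1) ^ 2)) := by
    have h := (h1.norm.pow 2).const_sub 1
    convert h using 2
    rw [Complex.norm_real, Real.norm_eq_abs, sq_abs]
  have e3 : ∀ᶠ k in atTop, ‖1 - (starRingEnd ℂ) ((vv k r - ((1 / 16 + ep k : ℝ) : ℂ)) /
      ((1 / 16 : ℝ) : ℂ)) * ((((2 * ep k : ℝ) : ℂ) - ((1 / 16 + ep k : ℝ) : ℂ)) /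
      ((1 / 16 : ℝ) : ℂ))‖ < 20 * r := h3.eventually_lt_const (by linarith)
  have e4 : ∀ᶠ k in atTop, 10 * r <
      1 - ‖(vv k r - ((1 / 16 + ep k : ℝ) : ℂ)) / ((1 / 16 : ℝ) : ℂ)‖ ^ 2 :=
    h4.eventually_const_lt (by nlinarith)
  filter_upwards [e3, e4] with k k3 k4
  refine ⟨?_, k3.le, k4.le⟩
  unfold BB
  rw [mem_ball, dist_eq_norm]
  have h5 : ‖(vv k r - ((1 / 16 + ep k : ℝ) : ℂ)) / ((1 / 16 : ℝ) : ℂ)‖ < 1 := by
    have := norm_nonneg ((vv k r - ((1 / 16 + ep k : ℝ) : ℂ)) / ((1 / 16 : ℝ) : ℂ))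
    nlinarith
  rwa [norm_div, Complex.norm_real, Real.norm_of_nonneg (by norm_num : (0 : ℝ) ≤ 1 / 16),
    div_lt_one (by norm_num)] at h5

/-- the main estimate along the two families of discs -/
lemma diff_le (hK : KobFacts Om) {r : ℝ} (hr : 0 < r) (hr1 : r < 1 / 80) (s : ℕ → ℂ → ℂ)
    (hs : ∀ k, DifferentiableOn ℂ (s k) (BB (ep k)))
    (hs1 : ∀ k, ∀ v ∈ BB (ep k), |(s k v).re| ≤ 1)
    (hs2 : ∀ k, ∀ v ∈ BB (ep k), |(s k v).im| ≤ ta k ^ 2 / 64)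
    (hs3 : ∀ k, s k ((2 * ep k : ℝ) : ℂ) = ((1 / 1000 : ℝ) : ℂ)) :
    ∀ᶠ k in atTop, vv k r ∈ BB (ep k) ∧
      kob Om (s k (vv k r), (r : ℂ)) (uu k) - kob Om (0, 1 / 2) (uu k)
        ≤ 1 / 2 * Real.log (1 / 2) := by
  filter_upwards [ev hr hr1] with k hk
  obtain ⟨k1, k2, k3⟩ := hk
  refine ⟨k1, ?_⟩
  have he := (par k).eps_pos
  have h1 := upper hK (par k) (hs k) (hs1 k) (hs2 k) k1 hr k2 k3
  rw [hs3, vv_eq] at h1
  have h2 := lower hK (par k) (uu_mem k) rfl z0_mem rfl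
  have h3 : Real.log (10 * r / ep k) - Real.log (1 / (4 * ep k)) ≤ Real.log (1 / 2) := by
    rw [← Real.log_div (by positivity) (by positivity)]
    apply Real.log_le_log (by positivity)
    rw [div_div_eq_mul_div, div_one]
    field_simp
    linarith
  change kob Om (s k (vv k r), (r : ℂ)) (((1 / 1000 : ℝ) : ℂ), _) - _ ≤ _
  linarith

end Pool.TH332.DW.H606

/-! Job DW-C, part 4: property (H) fails for `Om`. -/

namespace Pool.TH332.DW.H606

open Metric Set Filter Topology MeasureTheory Pool.TH332.DW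

lemma ff_vv_tendsto {r : ℝ} (hr : 0 < r) (hr1 : r < 1 / 80) :
    Tendsto (fun k => ff (ta k) (ep k) (vv k r)) atTop (𝓝 0) := by
  rw [tendsto_zero_iff_norm_tendsto_zero]
  have h1 : ∀ᶠ k in atTop, r / 2 < ‖vv k r‖ := by
    have h := (vv_tendsto r).norm
    rw [Complex.norm_real, Real.norm_of_nonneg hr.le] at h
    exact h.eventually_const_lt (by linarith)
  have h2 : Tendsto (fun k => ta k ^ 2 / 64 + ta k ^ 2 * (ta k / (r / 2))) atTop (𝓝 0) := by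
    have h := ((ta_tendsto.pow 2).div_const 64).add
      ((ta_tendsto.pow 2).mul (ta_tendsto.div_const (r / 2)))
    simpa using h
  refine squeeze_zero' (Eventually.of_forall fun k => norm_nonneg _) ?_ h2
  filter_upwards [h1, ev hr hr1] with k k1 k2
  have P := par k
  have hv := re_gt k2.1
  have he := P.eps_pos
  have hp := P.pos
  have h0 := P.lam_pos
  have hv0 : 0 < (vv k r).re := he.trans hv
  have h3 : ‖ff (ta k) (ep k) (vv k r)‖ ≤ |(ff (ta k) (ep k) (vv k r)).re| +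
    |(ff (ta k) (ep k) (vv k r)).im| := Complex.norm_le_abs_re_add_abs_im _
  have h4 := ff_im P hv0
  rw [abs_of_nonneg (ff_re_nonneg P hv0)] at h3
  have h5 : (ff (ta k) (ep k) (vv k r)).re ≤ ta k ^ 2 * (ta k / (r / 2)) := by
    unfold ff
    rw [Complex.re_ofReal_mul, Complex.log_re]
    have a1 : Real.log ‖1 + (ta k : ℂ) / vv k r‖ ≤ ta k / (r / 2) := by
      have b1 := Real.log_le_sub_one_of_pos (lt_of_lt_of_le one_pos (one_le_norm hp hv0))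
      have b2 := norm_le_add (v := vv k r) hp
      have b3 : ta k / ‖vv k r‖ ≤ ta k / (r / 2) :=
        div_le_div_of_nonneg_left hp.le (by positivity) k1.le
      linarith
    have a2 : 1 / 1000 / Lam (ta k) (ep k) ≤ ta k ^ 2 := by
      rw [div_le_iff₀ h0]
      have := P.lam
      rw [div_le_iff₀ (by positivity)] at this
      nlinarith
    exact mul_le_mul a2 a1 (Real.log_nonneg (one_le_norm hp hv0)) (by positivity)
  linarith

lemma ath_tendsto : Tendsto ath (𝓝 0) (𝓝 0) := by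
  have h : ContinuousAt ath 0 := by
    unfold ath
    apply ContinuousAt.mul continuousAt_const
    apply ContinuousAt.log
    · apply ContinuousAt.div
      · fun_prop
      · fun_prop
      · norm_num
    · norm_num
  have h0 : ath 0 = 0 := by unfold ath; simp
  have := h.tendsto
  rwa [h0] at this

lemma in_horo (hK : KobFacts Om) {z : ℂ × ℂ} (hz : z ∈ Om) {c : ℝ} (hc : c < 0)
    (h : ∀ᶠ k in atTop, kob Om z (uu k) - kob Om (0, 1 / 2) (uu k) ≤ c) :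
    z ∈ horosphere Om (0, 1 / 2) uu 1 := by
  refine ⟨hz, ?_⟩
  rw [Real.log_one, mul_zero]
  refine lt_of_le_of_lt (limsup_le_of_le ?_ h) hc
  apply IsBoundedUnder.isCoboundedUnder_le
  refine ⟨-kob Om (0, 1 / 2) z, ?_⟩
  rw [eventually_map]
  refine Eventually.of_forall fun k => ?_
  have := hK.triangle (0, 1 / 2) z0_mem z hz (uu k) (uu_mem k)
  change -kob Om (0, 1 / 2) z ≤ kob Om z (uu k) - kob Om (0, 1 / 2) (uu k)
  linarith

lemma log_half_neg : Real.log (1 / 2) < 0 := Real.log_neg (by norm_num) (by norm_num)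

lemma horo_p (hK : KobFacts Om) {r : ℝ} (hr : 0 < r) (hr1 : r < 1 / 80) :
    ((((1 / 1000 : ℝ) : ℂ), (r : ℂ)) : ℂ × ℂ) ∈ horosphere Om (0, 1 / 2) uu 1 := by
  have h := diff_le hK hr hr1 (fun _ _ => ((1 / 1000 : ℝ) : ℂ))
    (fun k => differentiableOn_const _)
    (fun k v _ => by rw [Complex.ofReal_re]; norm_num)
    (fun k v _ => by rw [Complex.ofReal_im, abs_zero]; positivity) (fun k => rfl)
  refine in_horo hK (real_mem (by norm_num) hr (by linarith)) (c := 1 / 2 * Real.log (1 / 2))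
    (by linarith [log_half_neg]) ?_
  filter_upwards [h] with k hk
  exact hk.2

lemma horo_0 (ho : IsOpen Om) (hK : KobFacts Om) {r : ℝ} (hr : 0 < r) (hr1 : r < 1 / 80) :
    (((0 : ℂ), (r : ℂ)) : ℂ × ℂ) ∈ horosphere Om (0, 1 / 2) uu 1 := by
  have h := diff_le hK hr hr1 (fun k => ff (ta k) (ep k))
    (fun k => ff_diff (par k))
    (fun k v hv => ff_re (par k) (re_gt hv))
    (fun k v hv => ff_im (par k) ((par k).eps_pos.trans (re_gt hv))) (fun k => ff_end (par k))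
  have hm : (((0 : ℂ), (r : ℂ)) : ℂ × ℂ) ∈ Om := by
    have := real_mem (x := 0) (r := r) (by simp) hr (by linarith)
    simpa using this
  obtain ⟨δ, hδ, hball⟩ := Metric.isOpen_iff.1 ho _ hm
  have hf := (ff_vv_tendsto hr hr1).norm
  rw [norm_zero] at hf
  have h1 : ∀ᶠ k in atTop, ‖ff (ta k) (ep k) (vv k r)‖ < δ := hf.eventually_lt_const hδ
  have h2 : Tendsto (fun k => ath (‖ff (ta k) (ep k) (vv k r)‖ / δ)) atTop (𝓝 0) := by
    have h3 := hf.div_const δ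
    rw [zero_div] at h3
    exact ath_tendsto.comp h3
  have h3 : ∀ᶠ k in atTop, ath (‖ff (ta k) (ep k) (vv k r)‖ / δ) < -(1 / 4 * Real.log (1 / 2)) :=
    h2.eventually_lt_const (by linarith [log_half_neg])
  refine in_horo hK hm (c := 1 / 4 * Real.log (1 / 2)) (by linarith [log_half_neg]) ?_
  filter_upwards [h, h1, h3] with k hk k1 k3
  obtain ⟨hk1, hk2⟩ := hk
  have hmem : ((ff (ta k) (ep k) (vv k r), (r : ℂ)) : ℂ × ℂ) ∈ Om := by
    have := mem_disc (par k) hk1 (ff_re (par k) (re_gt hk1))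
      (ff_im (par k) ((par k).eps_pos.trans (re_gt hk1)))
    rwa [vv_eq] at this
  have e1 : ‖((ff (ta k) (ep k) (vv k r), (r : ℂ)) : ℂ × ℂ) - (0, (r : ℂ))‖
      = ‖ff (ta k) (ep k) (vv k r)‖ := by
    rw [Prod.norm_def]
    simp
  have h4 := hK.near (0, (r : ℂ)) (ff (ta k) (ep k) (vv k r), (r : ℂ)) δ hδ hball (by rwa [e1])
  rw [e1] at h4
  have h5 := hK.triangle _ hm _ hmem (uu k) (uu_mem k)
  linarith

lemma close_of {x : ℂ} {S : Set (ℂ × ℂ)} (h : ∀ r : ℝ, 0 < r → r < 1 / 80 → (x, (r : ℂ)) ∈ S) :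
    (x, (0 : ℂ)) ∈ closure S := by
  rw [Metric.mem_closure_iff]
  intro e he
  refine ⟨(x, ((min (e / 2) (1 / 160) : ℝ) : ℂ)), h _ (by positivity) ?_, ?_⟩
  · exact lt_of_le_of_lt (min_le_right _ _) (by norm_num)
  · rw [dist_eq_norm, Prod.norm_def]
    have h1 : (0 : ℝ) ≤ min (e / 2) (1 / 160) := by positivity
    have h2 : min (e / 2) (1 / 160) < e := lt_of_le_of_lt (min_le_left _ _) (by linarith)
    have h3 : ‖((x, (0 : ℂ)) - (x, ((min (e / 2) (1 / 160) : ℝ) : ℂ)) : ℂ × ℂ).2‖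
        = min (e / 2) (1 / 160) := by
      change ‖(0 : ℂ) - ((min (e / 2) (1 / 160) : ℝ) : ℂ)‖ = _
      rw [zero_sub, norm_neg, Complex.norm_real, Real.norm_of_nonneg h1]
    have h4 : ‖((x, (0 : ℂ)) - (x, ((min (e / 2) (1 / 160) : ℝ) : ℂ)) : ℂ × ℂ).1‖ = 0 := by
      change ‖x - x‖ = 0
      simp
    rw [h3, h4]
    exact max_lt he h2

end Pool.TH332.DW.H606

namespace Pool.TH332.DW

open Metric Set Filter Topology

theorem not_propH_Om (hc : Convex ℝ Om) (ho : IsOpen Om) (hK : KobFacts Om) :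
    ¬ PropH Om := by
  intro hH
  have hfr : ∀ x : ℝ, |x| ≤ 1 → (((x : ℂ), (0 : ℂ)) : ℂ × ℂ) ∈ frontier Om := by
    intro x hx
    rw [ho.frontier_eq]
    refine ⟨H606.close_of fun r hr hr1 => H606.real_mem hx hr (by linarith), H606.not_mem⟩
  have hp : |(1 / 1000 : ℝ)| ≤ 1 := by norm_num
  obtain ⟨q, hq⟩ := hH (0, 1 / 2) H606.z0_mem H606.uu H606.uu_mem _ (hfr (1 / 1000) hp)
    H606.uu_tendsto 1 one_pos
    ⟨_, H606.horo_p hK (r := 1 / 100) (by norm_num) (by norm_num)⟩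
  have h1 : ((((1 / 1000 : ℝ) : ℂ), (0 : ℂ)) : ℂ × ℂ) ∈ ({q} : Set (ℂ × ℂ)) := by
    rw [← hq]
    exact ⟨H606.close_of fun r hr hr1 => H606.horo_p hK hr hr1, hfr _ hp⟩
  have h2 : (((0 : ℂ), (0 : ℂ)) : ℂ × ℂ) ∈ ({q} : Set (ℂ × ℂ)) := by
    rw [← hq]
    refine ⟨H606.close_of fun r hr hr1 => H606.horo_0 ho hK hr hr1, ?_⟩
    have := hfr 0 (by simp)
    simpa using this
  rw [mem_singleton_iff] at h1 h2
  rw [← h2] at h1
  have h3 : ((1 / 1000 : ℝ) : ℂ) = 0 := congrArg Prod.fst h1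
  norm_num at h3

end Pool.TH332.DW
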