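import Pool.Agent.TH606.FI_LOCAL
import Pool.Agent.TH365.FI_HYBTREE
import Pool.Agent.TH113.FI_HYBDIST

/-!
FI-CLUS: clusters around the new edges (MP_572a3e_an, job 1708).
-/

namespace Pool.Agent.TH606.FI

open MeasureTheory Set Filter Pool.Agent.TH722.FI
open scoped Topology ENNReal

variable {V W : Type*}

theorem dist_le_mul_length (U H : SimpleGraph V) (hH : H.Connected) (K : ℕ)
    (hK : ∀ u v, U.Adj u v → H.dist u v ≤ K) {p q : V} (w : U.Walk p q) :
    H.dist p q ≤ K * w.length := by
  induction w with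
  | nil => simp
  | @cons p p' q hadj w ih =>
    have h4 : H.dist p q ≤ H.dist p p' + H.dist p' q := hH.dist_triangle
    have h5 := hK p p' hadj
    simp only [SimpleGraph.Walk.length_cons]
    nlinarith

theorem dist_le_mul_dist (U H : SimpleGraph V) (hU : U.Connected) (hH : H.Connected) (K : ℕ)
    (hK : ∀ u v, U.Adj u v → H.dist u v ≤ K) (p q : V) :
    H.dist p q ≤ K * U.dist p q := by
  obtain ⟨w, hw⟩ := hU.exists_walk_length_eq_dist p q
  rw [← hw]
  exact dist_le_mul_length U H hH K hK w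

/-- a set containing all points between `p` and `z` joins them -/
theorem reach_geodesic (A : SimpleGraph V) (hA : A.Connected) (S : Set V) (z : V) :
    ∀ (n : ℕ) (p : V) (_ : A.dist p z = n)
      (_ : ∀ v, A.dist p v + A.dist v z = A.dist p z → v ∈ S) (hp : p ∈ S) (hz : z ∈ S),
      (A.induce S).Reachable ⟨p, hp⟩ ⟨z, hz⟩ := by
  intro n
  induction n with
  | zero =>
    intro p h0 _ hp hz
    have h1 : p = z := (hA.dist_eq_zero_iff).1 h0
    subst h1
    exact SimpleGraph.Reachable.refl _
  | succ n ih =>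
    intro p hd hS hp hz
    obtain ⟨w, hw⟩ := hA.exists_walk_length_eq_dist p z
    cases w with
    | nil => simp at hd
    | @cons _ p' _ hadj w =>
      simp only [SimpleGraph.Walk.length_cons] at hw
      have h1 : A.dist p' z ≤ w.length := SimpleGraph.dist_le w
      have h2 : A.dist p z ≤ A.dist p p' + A.dist p' z := hA.dist_triangle
      have h3 : A.dist p p' = 1 := SimpleGraph.dist_eq_one_iff_adj.2 hadj
      have h4 : A.dist p' z = n := by omega
      have hp' : p' ∈ S := hS p' (by omega)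
      have h5 := ih p' h4 (by
        intro v hv
        apply hS
        have h6 : A.dist p v ≤ A.dist p p' + A.dist p' v := hA.dist_triangle
        have h7 : A.dist p z ≤ A.dist p v + A.dist v z := hA.dist_triangle
        omega) hp' hz
      have h6 : (A.induce S).Adj ⟨p, hp⟩ ⟨p', hp'⟩ := hadj
      exact h6.reachable.trans h5

theorem hull_self (A : SimpleGraph V) (B : Set V) {z : V} (hz : z ∈ B) : Hull A B z :=
  ⟨z, hz, z, hz, by simp⟩

theorem hull_connected (A : SimpleGraph V) (hA : A.Connected) (B : Set V) (n : V) (hn : n ∈ B) :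
    (A.induce {z | Hull A B z}).Connected := by
  have hn' : n ∈ {z | Hull A B z} := hull_self A B hn
  have key1 : ∀ p, p ∈ B → ∀ (hp : p ∈ {z | Hull A B z}),
      (A.induce {z | Hull A B z}).Reachable ⟨p, hp⟩ ⟨n, hn'⟩ := by
    intro p hpB hp
    apply reach_geodesic A hA _ n _ p rfl
    intro v hv
    exact ⟨p, hpB, n, hn, hv⟩
  have key2 : ∀ z, ∀ (hz : z ∈ {z | Hull A B z}),
      (A.induce {z | Hull A B z}).Reachable ⟨z, hz⟩ ⟨n, hn'⟩ := by
    intro z hz
    obtain ⟨p, hp, q, hq, hpq⟩ := hz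
    have hp' : p ∈ {z | Hull A B z} := hull_self A B hp
    have h1 : (A.induce {z | Hull A B z}).Reachable ⟨p, hp'⟩ ⟨z, ⟨p, hp, q, hq, hpq⟩⟩ := by
      apply reach_geodesic A hA _ z _ p rfl
      intro v hv
      refine ⟨p, hp, q, hq, ?_⟩
      have h2 : A.dist v q ≤ A.dist v z + A.dist z q := hA.dist_triangle
      have h3 : A.dist p q ≤ A.dist p v + A.dist v q := hA.dist_triangle
      omega
    exact h1.symm.trans (key1 p hp hp')
  rw [SimpleGraph.connected_iff]
  refine ⟨?_, ⟨⟨n, hn'⟩⟩⟩
  intro x y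
  exact (key2 x.1 x.2).trans (key2 y.1 y.2).symm

theorem clus (U T C C' : SimpleGraph V) (hU : U.IsTree) (hT : T.IsTree) (hCC : C ≤ C')
    (hC : C' ≤ T) (N : ℕ → ℕ) (hN : BallBd U N) (key : V → ℝ) (hkey : Function.Injective key)
    (M : ℕ) (hM : 1 ≤ M) (hnice : ∀ a b, C'.Adj a b → Nice U T M a b)
    (P : Set V) (hP : ∀ a b, C'.Adj a b → ¬ C.Adj a b → a ∈ P ∨ b ∈ P)
    (R2 R3 : ℕ) (hR2 : R2 = 7 * M + 2) (hR3 : R3 = R2 + 2 * R2 * (N M * (2 * M + 1)) * (2 * M + 1))
    (hsep : ∀ a ∈ P, ∀ b ∈ P, U.dist a b ≤ 2 * R3 → a = b) :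
    Equivalence (Clus U (Hyb U T C' key) P R2) ∧
    (∀ x, ((Hyb U T C' key).induce {z | Clus U (Hyb U T C' key) P R2 x z}).Connected) ∧
    (∀ x y, ¬ Clus U (Hyb U T C' key) P R2 x y →
      ((Hyb U T C' key).Adj x y ↔ (Hyb U T C key).Adj x y)) ∧
    (∀ x y, Clus U (Hyb U T C' key) P R2 x y → U.dist x y ≤ 2 * R3) := by
  have hUc := hU.connected
  have hniceC : ∀ a b, C.Adj a b → Nice U T M a b := fun a b h => hnice a b (hCC h)
  obtain ⟨hd1, hd2⟩ := Pool.Agent.TH113.FIHybdist.hyb_dist U T C' hU hT hC N hN key hkey M hM hnice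
  obtain ⟨-, hd3⟩ := Pool.Agent.TH113.FIHybdist.hyb_dist U T C hU hT (hCC.trans hC) N hN key hkey M hM hniceC
  have hAt := (Pool.Agent.TH365.FI.hyb_tree U T C' hU hT hC N hN key hkey).1
  have hlocal := fun x y => hyb_local U T C C' hU hT hCC hC N hN key hkey M hnice x y
  set A : SimpleGraph V := Hyb U T C' key with hAdef
  have hA := hAt.connected
  -- (1)
  have step1 : ∀ n z, Hull A {v | U.dist n v ≤ R2} z → U.dist n z ≤ R3 := by
    rintro n z ⟨p, hp, q, hq, hpq⟩
    have hp' : U.dist n p ≤ R2 := hp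
    have hq' : U.dist n q ≤ R2 := hq
    have h1 : U.dist p q ≤ U.dist p n + U.dist n q := hUc.dist_triangle
    have h2 : U.dist p n = U.dist n p := SimpleGraph.dist_comm
    have h3 : U.dist p q ≤ 2 * R2 := by omega
    have h4 := dist_le_mul_dist U A hUc hA _ hd1 p q
    have h5 := dist_le_mul_dist A U hA hUc _ hd2 p z
    have h6 : A.dist p z ≤ N M * (2 * M + 1) * (2 * R2) := by
      calc A.dist p z ≤ A.dist p q := by omega
        _ ≤ N M * (2 * M + 1) * U.dist p q := h4
        _ ≤ N M * (2 * M + 1) * (2 * R2) := Nat.mul_le_mul_left _ h3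
    have h7 : U.dist p z ≤ (2 * M + 1) * (N M * (2 * M + 1) * (2 * R2)) :=
      h5.trans (Nat.mul_le_mul_left _ h6)
    have h8 : U.dist n z ≤ U.dist n p + U.dist p z := hUc.dist_triangle
    have h9 : (2 * M + 1) * (N M * (2 * M + 1) * (2 * R2)) =
        2 * R2 * (N M * (2 * M + 1)) * (2 * M + 1) := by ring
    rw [hR3]
    omega
  -- (2)
  have step2 : ∀ n ∈ P, ∀ n' ∈ P, ∀ z, Hull A {v | U.dist n v ≤ R2} z →
      Hull A {v | U.dist n' v ≤ R2} z → n = n' := by
    intro n hn n' hn' z hz hz'
    apply hsep n hn n' hn'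
    have h1 := step1 n z hz
    have h2 := step1 n' z hz'
    have h3 : U.dist n n' ≤ U.dist n z + U.dist z n' := hUc.dist_triangle
    have h4 : U.dist z n' = U.dist n' z := SimpleGraph.dist_comm
    omega
  refine ⟨⟨fun x => Or.inl rfl, ?_, ?_⟩, ?_, ?_, ?_⟩
  · rintro x y (h | ⟨n, hn, h1, h2⟩)
    · exact Or.inl h.symm
    · exact Or.inr ⟨n, hn, h2, h1⟩
  · rintro x y z (h | ⟨n, hn, h1, h2⟩) h'
    · subst h
      exact h'
    · rcases h' with h' | ⟨n', hn', h1', h2'⟩
      · subst h'
        exact Or.inr ⟨n, hn, h1, h2⟩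
      · have := step2 n hn n' hn' y h2 h1'
        subst this
        exact Or.inr ⟨n, hn, h1, h2'⟩
  · intro x
    by_cases hx : ∃ n ∈ P, Hull A {v | U.dist n v ≤ R2} x
    · obtain ⟨n, hn, hnx⟩ := hx
      have hset : {z | Clus U A P R2 x z} = {z | Hull A {v | U.dist n v ≤ R2} z} := by
        ext z
        constructor
        · rintro (h | ⟨n', hn', h1', h2'⟩)
          · subst h
            exact hnx
          · have := step2 n hn n' hn' x hnx h1'
            subst this
            exact h2'
        · intro hz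
          exact Or.inr ⟨n, hn, hnx, hz⟩
      rw [hset]
      exact hull_connected A hA _ n (by simp)
    · have hset : {z | Clus U A P R2 x z} = {x} := by
        ext z
        constructor
        · rintro (h | ⟨n', hn', h1', h2'⟩)
          · exact h.symm
          · exact absurd ⟨n', hn', h1'⟩ hx
        · intro hz
          exact Or.inl hz.symm
      rw [hset]
      rw [SimpleGraph.connected_iff]
      refine ⟨?_, ⟨⟨x, rfl⟩⟩⟩
      intro a b
      have : a = b := Subtype.ext (a.2.trans b.2.symm)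
      subst this
      exact SimpleGraph.Reachable.refl _
  · intro x y hxy
    by_contra hne
    apply hxy
    obtain ⟨a, b, hab, hnab, hxa, hxb⟩ := hlocal x y (fun h => hne h.symm)
    have hdxy : U.dist x y ≤ 2 * M + 1 := by
      by_cases h1 : A.Adj x y
      · exact hd2 x y h1
      · have h2 : (Hyb U T C key).Adj x y := by
          by_contra h2
          exact hne ⟨fun h => absurd h h1, fun h => absurd h h2⟩
        exact hd3 x y h2
    have key1 : ∀ n ∈ P, U.dist x n ≤ 5 * M + 1 → Clus U A P R2 x y := by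
      intro n hn hd
      have h1 : U.dist x n = U.dist n x := SimpleGraph.dist_comm
      have h2 : U.dist n y ≤ U.dist n x + U.dist x y := hUc.dist_triangle
      refine Or.inr ⟨n, hn, hull_self _ _ ?_, hull_self _ _ ?_⟩
      · show U.dist n x ≤ R2
        omega
      · show U.dist n y ≤ R2
        omega
    rcases hP a b hab hnab with h | h
    · exact key1 a h hxa
    · exact key1 b h hxb
  · rintro x y (h | ⟨n, hn, h1, h2⟩)
    · subst h
      simp
    · have h3 := step1 n x h1
      have h4 := step1 n y h2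
      have h5 : U.dist x y ≤ U.dist x n + U.dist n y := hUc.dist_triangle
      have h6 : U.dist x n = U.dist n x := SimpleGraph.dist_comm
      omega

end Pool.Agent.TH606.FI
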