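import Pool.Agent.TH722.FI.Defs
import Pool.Agent.TH267.FI_GEO

/-!
FI-LOCAL: locality of the hybrid tree in the set of chosen edges (MP_572a3e_an, job 1707).
-/

namespace Pool.Agent.TH606.FI

open MeasureTheory Set Filter Pool.Agent.TH722.FI
open scoped Topology ENNReal

variable {V W : Type*}

/-- along a walk of a connected graph between two points not joined in `H`
there is an edge whose ends are not joined in `H` -/
theorem exists_cross (U H : SimpleGraph V) (hU : U.Connected) {p q : V} (w : U.Walk p q)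
    (h : ¬ H.Reachable p q) :
    ∃ u v, U.Adj u v ∧ ¬ H.Reachable u v ∧ U.dist p u + 1 ≤ w.length := by
  induction w with
  | nil => exact absurd (SimpleGraph.Reachable.refl _) h
  | @cons p p' q hadj w ih =>
    by_cases h1 : H.Reachable p p'
    · have h2 : ¬ H.Reachable p' q := fun h3 => h (h1.trans h3)
      obtain ⟨u, v, huv, hr, hd⟩ := ih h2
      refine ⟨u, v, huv, hr, ?_⟩
      have h4 : U.dist p u ≤ U.dist p p' + U.dist p' u := hU.dist_triangle
      have h5 : U.dist p p' = 1 := SimpleGraph.dist_eq_one_iff_adj.2 hadj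
      simp only [SimpleGraph.Walk.length_cons]
      omega
    · exact ⟨p, p', hadj, h1, by simp⟩

/-- in a tree, an edge on a path separates the ends -/
theorem not_reachable_of_mem_path (T : SimpleGraph V) (hT : T.IsAcyclic) {p q : V}
    (w : T.Walk p q) (hw : w.IsPath) {a b : V} (hab : s(a, b) ∈ w.edges) :
    ¬ (T.deleteEdges {s(a, b)}).Reachable p q := by
  classical
  rintro ⟨w'⟩
  have h1 : (w'.toPath : (T.deleteEdges {s(a, b)}).Walk p q).IsPath := w'.toPath.2
  set w2 : T.Walk p q := (w'.toPath : (T.deleteEdges {s(a, b)}).Walk p q).mapLe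
    (SimpleGraph.deleteEdges_le _) with hw2
  have h2 : w2.IsPath := (SimpleGraph.Walk.isPath_mapLe _).2 h1
  have h3 : (⟨w, hw⟩ : T.Path p q) = ⟨w2, h2⟩ := (hT.subsingleton_path _ _).elim _ _
  have h4 : w = w2 := congrArg Subtype.val h3
  rw [h4, hw2] at hab
  have h5 : s(a, b) ∈ (w'.toPath : (T.deleteEdges {s(a, b)}).Walk p q).edges := by
    simpa using hab
  have h6 := SimpleGraph.Walk.edges_subset_edgeSet _ h5
  simp at h6

/-- TOOL, first part: the separating new edge -/
theorem exists_new_edge (T C C' : SimpleGraph V) (hT : T.IsAcyclic) {p q : V}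
    (h : Blk T C p q) (h' : ¬ Blk T C' p q) :
    ∃ a b, C'.Adj a b ∧ ¬ C.Adj a b ∧ ¬ (T.deleteEdges {s(a, b)}).Reachable p q := by
  classical
  obtain ⟨w0⟩ := h
  set w : (T \ C).Walk p q := (w0.toPath : (T \ C).Path p q).1
  have hw : w.IsPath := w0.toPath.2
  have h1 : ∃ e ∈ w.edges, e ∈ C'.edgeSet := by
    by_contra hcon
    push Not at hcon
    apply h'
    refine ⟨w.transfer (T \ C') ?_⟩
    intro e he
    have he1 := SimpleGraph.Walk.edges_subset_edgeSet _ he
    have he2 := hcon e he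
    induction e with
    | h a b =>
      rw [SimpleGraph.mem_edgeSet] at he1 he2 ⊢
      rw [SimpleGraph.sdiff_adj] at he1 ⊢
      exact ⟨he1.1, he2⟩
  obtain ⟨e, he, heC⟩ := h1
  have he1 := SimpleGraph.Walk.edges_subset_edgeSet _ he
  induction e with
  | h a b =>
    rw [SimpleGraph.mem_edgeSet] at he1 heC
    rw [SimpleGraph.sdiff_adj] at he1
    refine ⟨a, b, heC, he1.2, ?_⟩
    have hle : T \ C ≤ T := sdiff_le
    have h2 : (w.mapLe hle).IsPath := (SimpleGraph.Walk.isPath_mapLe _).2 hw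
    apply not_reachable_of_mem_path T hT (w.mapLe hle) h2
    simpa using he

/-- TOOL -/
theorem tool (U T C C' : SimpleGraph V) (hU : U.Connected) (hT : T.IsAcyclic)
    (M : ℕ) (hnice : ∀ a b, C'.Adj a b → Nice U T M a b) {p q : V}
    (h : Blk T C p q) (h' : ¬ Blk T C' p q) :
    ∃ a b, C'.Adj a b ∧ ¬ C.Adj a b ∧ U.dist p a ≤ U.dist p q + M ∧
      U.dist p b ≤ U.dist p q + M := by
  obtain ⟨a, b, hab, hnab, hr⟩ := exists_new_edge T C C' hT h h'
  obtain ⟨w, hw⟩ := hU.exists_walk_length_eq_dist p q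
  obtain ⟨u, v, huv, hruv, hd⟩ := exists_cross U _ hU w hr
  obtain ⟨h1, h2⟩ := (hnice a b hab).2 u v huv hruv
  refine ⟨a, b, hab, hnab, ?_, ?_⟩
  · have h3 : U.dist p a ≤ U.dist p u + U.dist u a := hU.dist_triangle
    omega
  · have h3 : U.dist p b ≤ U.dist p u + U.dist u b := hU.dist_triangle
    omega

theorem Blk_mono {T C C' : SimpleGraph V} (h : C ≤ C') {x y : V} (hb : Blk T C' x y) :
    Blk T C x y :=
  SimpleGraph.Reachable.mono (sdiff_le_sdiff_left h) hb

theorem hyb_local (U T C C' : SimpleGraph V) (hU : U.IsTree) (hT : T.IsTree) (hCC : C ≤ C')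
    (hC : C' ≤ T) (N : ℕ → ℕ) (_hN : BallBd U N) (key : V → ℝ) (hkey : Function.Injective key)
    (M : ℕ) (hnice : ∀ a b, C'.Adj a b → Nice U T M a b) (x y : V)
    (hne : ¬ ((Hyb U T C key).Adj x y ↔ (Hyb U T C' key).Adj x y)) :
    ∃ a b, C'.Adj a b ∧ ¬ C.Adj a b ∧ U.dist x a ≤ 5 * M + 1 ∧ U.dist x b ≤ 5 * M + 1 := by
  have hUc := hU.connected
  have hTa := hT.isAcyclic
  have hniceC : ∀ a b, C.Adj a b → Nice U T M a b := fun a b h => hnice a b (hCC h)
  by_cases h1 : (Hyb U T C key).Adj x y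
  · have h2 : ¬ (Hyb U T C' key).Adj x y := fun h => hne ⟨fun _ => h, fun _ => h1⟩
    rcases h1 with h1 | ⟨hxy, hb, u, v, huv, hu, hv⟩
    · exact absurd (Or.inl (hCC h1)) h2
    · obtain ⟨g1, g2, g3, -, g5⟩ :=
        Pool.Agent.TH267.FI.block_geo U T C hU hT (hCC.trans hC) key hkey x y u v hxy hb huv hu hv
      obtain ⟨g6, g7⟩ := g5 M hniceC
      have hb' : ¬ Blk T C' x y := by
        intro hb'
        apply h2
        refine Or.inr ⟨hxy, hb', u, v, huv, ?_, ?_⟩
        · intro w hw
          exact hu w (Blk_mono hCC hw)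
        · intro w hw
          exact hv w (Blk_mono hCC hw)
      obtain ⟨a, b, hab, hnab, ha, hb2⟩ := tool U T C C' hUc hTa M hnice hb hb'
      exact ⟨a, b, hab, hnab, by omega, by omega⟩
  · have h2 : (Hyb U T C' key).Adj x y := by
      by_contra h
      exact hne ⟨fun h3 => absurd h3 h1, fun h3 => absurd h3 h⟩
    rcases h2 with h2 | ⟨hxy, hb, u, v, huv, hu, hv⟩
    · refine ⟨x, y, h2, fun h3 => h1 (Or.inl h3), ?_, ?_⟩
      · simp
      · have := (hnice x y h2).1
        omega
    · obtain ⟨g1, g2, g3, -, g5⟩ :=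
        Pool.Agent.TH267.FI.block_geo U T C' hU hT hC key hkey x y u v hxy hb huv hu hv
      obtain ⟨g6, g7⟩ := g5 M hnice
      have hbC : Blk T C x y := Blk_mono hCC hb
      have h3 : ¬ Near U T C key u x ∨ ¬ Near U T C key v y := by
        by_contra hcon
        push Not at hcon
        exact h1 (Or.inr ⟨hxy, hbC, u, v, huv, hcon.1, hcon.2⟩)
      have key1 : ∀ u' x', Near U T C' key u' x' → ¬ Near U T C key u' x' → U.dist u' x' ≤ M →
          ∃ a b, C'.Adj a b ∧ ¬ C.Adj a b ∧ U.dist x' a ≤ 3 * M ∧ U.dist x' b ≤ 3 * M := by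
        intro u' x' hn hnn hd
        unfold Near at hnn
        push Not at hnn
        obtain ⟨w, hw, hw1, hw2⟩ := hnn
        have hw' : ¬ Blk T C' x' w := by
          intro hcon
          rcases hn w hcon with h5 | ⟨h5, h6⟩
          · omega
          · exact absurd (hw2 h5) (not_lt.2 h6)
        obtain ⟨a, b, hab, hnab, ha, hb2⟩ := tool U T C C' hUc hTa M hnice hw hw'
        have h7 : U.dist x' w ≤ U.dist x' u' + U.dist u' w := hUc.dist_triangle
        have h8 : U.dist x' u' = U.dist u' x' := SimpleGraph.dist_comm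
        exact ⟨a, b, hab, hnab, by omega, by omega⟩
      rcases h3 with h3 | h3
      · obtain ⟨a, b, hab, hnab, ha, hb2⟩ := key1 u x hu h3 g6
        exact ⟨a, b, hab, hnab, by omega, by omega⟩
      · obtain ⟨a, b, hab, hnab, ha, hb2⟩ := key1 v y hv h3 g7
        have h7 : U.dist x a ≤ U.dist x y + U.dist y a := hUc.dist_triangle
        have h8 : U.dist x b ≤ U.dist x y + U.dist y b := hUc.dist_triangle
        exact ⟨a, b, hab, hnab, by omega, by omega⟩

end Pool.Agent.TH606.FI
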